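import Pool.Agent.J4H64.LC.Quad

/-!
# Project LC: the Cremona transformation
-/

set_option autoImplicit false

open MvPolynomial FF

namespace Pool.Agent.J4H64.LC

open Pool.Agent.J4H13.BC Pool.Agent.J4H13.LA Pool.Agent.J4H13.BD Pool.Agent.J4H13.LC
  Pool.Agent.W602.GT Pool.Agent.W603.LV

/-- two points are on a line -/
lemma exists_common {A B : Submodule ℂ V3} (hA : Module.finrank ℂ A = 2)
    (hB : Module.finrank ℂ B = 2) : ∃ w : V3, w ≠ 0 ∧ w ∈ A ∧ w ∈ B := by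
  have h1 := Submodule.finrank_sup_add_finrank_inf_eq A B
  have h2 : Module.finrank ℂ (A ⊔ B : Submodule ℂ V3) ≤ 3 := by
    have := Submodule.finrank_le (A ⊔ B)
    simpa using this
  have h3 : 0 < Module.finrank ℂ (A ⊓ B : Submodule ℂ V3) := by omega
  obtain ⟨⟨w, hw⟩, hw0⟩ := Module.finrank_pos_iff_exists_ne_zero.1 h3
  exact ⟨w, fun h => hw0 (Subtype.ext h), hw.1, hw.2⟩

lemma eval_IW {A : Submodule ℂ V3} {p : V3} (h : ∀ w ∈ A, eval p (lin w) = 0) {Q : P3}
    (hQ : Q ∈ IW A) : eval p Q = 0 := by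
  have h1 : IW A ≤ RingHom.ker (eval p) := by
    unfold IW
    rw [Ideal.span_le]
    rintro _ ⟨w, hw, rfl⟩
    exact h w hw
  exact h1 hQ

/-- the triangle of the fundamental points -/
lemma exists_triangle (hbez : S_BEZ) {Q : P3} (hQ : Q.IsHomogeneous 2) (hN : Nice Q)
    {A B X : Submodule ℂ V3} (hAB : A ≠ B) (hAX : A ≠ X) (hBX : B ≠ X)
    (hA : Module.finrank ℂ A = 2) (hB : Module.finrank ℂ B = 2) (hX : Module.finrank ℂ X = 2)
    (cA : Q ∈ IW A) (cB : Q ∈ IW B) (cX : Q ∈ IW X) :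
    ∃ m : Fin 3 → V3, LinearIndependent ℂ m ∧ (m 1 ∈ A ∧ m 2 ∈ A ∧ m 0 ∉ A) ∧
      (m 0 ∈ B ∧ m 2 ∈ B ∧ m 1 ∉ B) ∧ (m 0 ∈ X ∧ m 1 ∈ X ∧ m 2 ∉ X) := by
  classical
  have hno : ∀ w : V3, w ≠ 0 → w ∈ A → w ∈ B → w ∈ X → False := by
    intro w hw wA wB wX
    have h1 := hbez.1 Q 2 hQ w hw (hN.1 w hw) {A, B, X} (by
      intro W hW
      simp only [Finset.mem_insert, Finset.mem_singleton] at hW
      rcases hW with rfl | rfl | rfl
      · exact ⟨hA, wA, cA⟩
      · exact ⟨hB, wB, cB⟩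
      · exact ⟨hX, wX, cX⟩)
    rw [Finset.card_eq_three.2 ⟨A, B, X, hAB, hAX, hBX, rfl⟩] at h1
    omega
  obtain ⟨m₀, h0, h0B, h0X⟩ := exists_common hB hX
  obtain ⟨m₁, h1, h1A, h1X⟩ := exists_common hA hX
  obtain ⟨m₂, h2, h2A, h2B⟩ := exists_common hA hB
  have n0 : m₀ ∉ A := fun h => hno m₀ h0 h h0B h0X
  have n1 : m₁ ∉ B := fun h => hno m₁ h1 h1A h h1X
  have n2 : m₂ ∉ X := fun h => hno m₂ h2 h2A h2B h
  have smul_cancel : ∀ (W : Submodule ℂ V3) (c : ℂ) (w : V3), w ∉ W → c • w ∈ W → c = 0 := by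
    intro W c w hw h
    by_contra hc
    apply hw
    have := W.smul_mem c⁻¹ h
    rwa [smul_smul, inv_mul_cancel₀ hc, one_smul] at this
  refine ⟨![m₀, m₁, m₂], ?_, ⟨h1A, h2A, n0⟩, ⟨h0B, h2B, n1⟩, ⟨h0X, h1X, n2⟩⟩
  rw [Fintype.linearIndependent_iff]
  intro c hc
  rw [Fin.sum_univ_three] at hc
  change c 0 • m₀ + c 1 • m₁ + c 2 • m₂ = 0 at hc
  have e0 : c 0 = 0 := by
    apply smul_cancel A _ _ n0
    have : c 0 • m₀ = -(c 1 • m₁ + c 2 • m₂) := by
      rw [eq_neg_iff_add_eq_zero, ← add_assoc]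
      exact hc
    rw [this]
    exact A.neg_mem (A.add_mem (A.smul_mem _ h1A) (A.smul_mem _ h2A))
  have e1 : c 1 = 0 := by
    apply smul_cancel B _ _ n1
    have : c 1 • m₁ = -(c 0 • m₀ + c 2 • m₂) := by
      rw [eq_neg_iff_add_eq_zero, ← hc]
      abel
    rw [this]
    exact B.neg_mem (B.add_mem (B.smul_mem _ h0B) (B.smul_mem _ h2B))
  have e2 : c 2 = 0 := by
    apply smul_cancel X _ _ n2
    have : c 2 • m₂ = -(c 0 • m₀ + c 1 • m₁) := by
      rw [eq_neg_iff_add_eq_zero, ← hc]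
      abel
    rw [this]
    exact X.neg_mem (X.add_mem (X.smul_mem _ h0X) (X.smul_mem _ h1X))
  intro i
  fin_cases i
  · exact e0
  · exact e1
  · exact e2

/-- a conic through the three vertices of the triangle of the coordinates -/
lemma conic_triangle {m : Fin 3 → V3} (hm : LinearIndependent ℂ m) {Q : P3}
    (hQ : Q.IsHomogeneous 2) {A B X : Submodule ℂ V3}
    (hA : ∀ w ∈ A, ∃ b c : ℂ, w = b • m 1 + c • m 2)
    (hB : ∀ w ∈ B, ∃ b c : ℂ, w = b • m 0 + c • m 2)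
    (hX : ∀ w ∈ X, ∃ b c : ℂ, w = b • m 0 + c • m 1)
    (cA : Q ∈ IW A) (cB : Q ∈ IW B) (cX : Q ∈ IW X) : ∃ α β γ : ℂ,
    Q = C α * (lin (m 1) * lin (m 2)) + C β * (lin (m 0) * lin (m 2)) +
      C γ * (lin (m 0) * lin (m 1)) := by
  obtain ⟨q₀₀, q₁₁, q₂₂, q₀₁, q₀₂, q₁₂, hq⟩ := quad_six hm hQ
  have key : ∀ (W : Submodule ℂ V3) (t : V3), (∀ w ∈ W, ∀ p : V3,
      (∀ j, eval p (lin (m j)) = t j) → eval p (lin w) = 0) → Q ∈ IW W →
      q₀₀ * t 0 ^ 2 + q₁₁ * t 1 ^ 2 + q₂₂ * t 2 ^ 2 + q₀₁ * (t 0 * t 1) + q₀₂ * (t 0 * t 2) +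
        q₁₂ * (t 1 * t 2) = 0 := by
    intro W t hW hQW
    obtain ⟨p, hp⟩ := exists_dual hm t
    have h1 := eval_IW (fun w hw => hW w hw p hp) hQW
    rw [hq] at h1
    simp only [map_add, map_mul, map_pow, eval_C, hp] at h1
    exact h1
  have k0 := key A ![1, 0, 0] (by
    intro w hw p hp
    obtain ⟨b, c, rfl⟩ := hA w hw
    rw [lin_add, lin_smul, lin_smul, map_add, map_mul, map_mul, hp, hp]
    simp) cA
  have k1 := key B ![0, 1, 0] (by
    intro w hw p hp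
    obtain ⟨b, c, rfl⟩ := hB w hw
    rw [lin_add, lin_smul, lin_smul, map_add, map_mul, map_mul, hp, hp]
    simp) cB
  have k2 := key X ![0, 0, 1] (by
    intro w hw p hp
    obtain ⟨b, c, rfl⟩ := hX w hw
    rw [lin_add, lin_smul, lin_smul, map_add, map_mul, map_mul, hp, hp]
    simp) cX
  simp at k0 k1 k2
  refine ⟨q₁₂, q₀₂, q₀₁, ?_⟩
  rw [hq, k0, k1, k2]
  simp only [C_0]
  ring

variable {K : Type} [Field K] [Algebra ℂ K]

/-- a factor of the branch curve after the transformation -/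
def Fac (E : IntermediateField ℂ K) (x' y' M₀ : K) (d : ℕ) (f : K) : Prop :=
  ∃ g ∈ E, g ≠ 0 ∧ ∃ w : Fin 3 → V3, (∀ j, w j ≠ 0) ∧
    f = M₀ ^ d * g ^ 2 * ∏ j, ev (gp x' y') (w j)

lemma fac_mk {E : IntermediateField ℂ K} {x' y' M₀ : K} {d : ℕ} {f : K}
    (hx : x' ∈ E) (hy : y' ∈ E) (hx0 : x' ≠ 0) (hy0 : y' ≠ 0) (ε δ : Bool) (w : V3) (hw : w ≠ 0)
    (hf : f * (if ε then x' else 1) * (if δ then y' else 1) = M₀ ^ d * ev (gp x' y') w) :
    Fac E x' y' M₀ d f := by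
  classical
  refine ⟨((if ε then x' else 1) * (if δ then y' else 1))⁻¹, ?_, ?_,
    ![w, if ε then Pi.single 1 1 else Pi.single 0 1,
      if δ then Pi.single 2 1 else Pi.single 0 1], ?_, ?_⟩
  · apply inv_mem
    apply mul_mem
    · split_ifs
      · exact hx
      · exact one_mem E
    · split_ifs
      · exact hy
      · exact one_mem E
  · apply inv_ne_zero
    apply mul_ne_zero
    · split_ifs
      · exact hx0
      · exact one_ne_zero
    · split_ifs
      · exact hy0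
      · exact one_ne_zero
  · have hs : ∀ i : Fin 3, (Pi.single i 1 : V3) ≠ 0 := by
      intro i h
      have := congrFun h i
      simp at this
    intro j
    fin_cases j
    · exact hw
    · change (if ε then Pi.single 1 1 else Pi.single 0 1 : V3) ≠ 0
      split_ifs <;> exact hs _
    · change (if δ then Pi.single 2 1 else Pi.single 0 1 : V3) ≠ 0
      split_ifs <;> exact hs _
  · rw [Fin.prod_univ_three]
    change f = M₀ ^ d * (((if ε then x' else 1) * (if δ then y' else 1))⁻¹) ^ 2 *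
      (ev (gp x' y') w * ev (gp x' y') (if ε then Pi.single 1 1 else Pi.single 0 1) *
        ev (gp x' y') (if δ then Pi.single 2 1 else Pi.single 0 1))
    have h1 : ev (gp x' y') (if ε then Pi.single 1 1 else Pi.single 0 1) =
        if ε then x' else 1 := by
      split_ifs
      · rw [ev_single]; rfl
      · rw [ev_single]; rfl
    have h2 : ev (gp x' y') (if δ then Pi.single 2 1 else Pi.single 0 1) =
        if δ then y' else 1 := by
      split_ifs
      · rw [ev_single]; rfl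
      · rw [ev_single]; rfl
    rw [h1, h2]
    have h3 : (if ε then x' else 1) ≠ 0 := by
      split_ifs
      · exact hx0
      · exact one_ne_zero
    have h4 : (if δ then y' else 1) ≠ 0 := by
      split_ifs
      · exact hy0
      · exact one_ne_zero
    field_simp
    linear_combination hf

/-- coordinates of the vectors in a face of the triangle -/
lemma face {m : Fin 3 → V3} (hm : LinearIndependent ℂ m) {A : Submodule ℂ V3} (i j k : Fin 3)
    (hijk : ∀ c : V3, c 0 • m 0 + c 1 • m 1 + c 2 • m 2 = c i • m i + (c j • m j + c k • m k))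
    (hi : m i ∉ A) (hj : m j ∈ A) (hk : m k ∈ A) :
    ∀ w ∈ A, ∃ b c : ℂ, w = b • m j + c • m k := by
  intro w hw
  obtain ⟨c, hc⟩ := exists_coeffs hm w
  rw [hijk c] at hc
  have h1 : c i • m i ∈ A := by
    have h2 : c i • m i = w - (c j • m j + c k • m k) := by
      rw [hc]
      abel
    rw [h2]
    exact A.sub_mem hw (A.add_mem (A.smul_mem _ hj) (A.smul_mem _ hk))
  have h2 : c i = 0 := by
    by_contra hci
    apply hi
    have := A.smul_mem (c i)⁻¹ h1
    rwa [smul_smul, inv_mul_cancel₀ hci, one_smul] at this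
  refine ⟨c j, c k, ?_⟩
  rw [hc, h2, zero_smul, zero_add]

lemma vec_ne_zero {a b c : ℂ} (h : ¬ (a = 0 ∧ b = 0 ∧ c = 0)) : (![a, b, c] : V3) ≠ 0 := by
  intro h1
  apply h
  refine ⟨?_, ?_, ?_⟩
  · exact congrFun h1 0
  · exact congrFun h1 1
  · exact congrFun h1 2

lemma der_ev (D : Derivation ℂ K K) (x y : K) (w : V3) : D (ev (gp x y) w) =
    algebraMap ℂ K (w 1) * D x + algebraMap ℂ K (w 2) * D y := by
  rw [ev_gp, map_add, map_add, D.leibniz, D.leibniz, D.map_algebraMap, D.map_algebraMap,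
    D.map_algebraMap, smul_zero, smul_zero, add_zero, add_zero, zero_add, smul_eq_mul,
    smul_eq_mul]

theorem t_CREM : S_CREM := by
  classical
  intro hbez K _ _ x y hxy Q hQ hN k l hl0 htri v hv0 hv hpg hq
  obtain ⟨A, B, X, hAB, hAX, hBX, hA, hB, hX, cA, cB, cX, hl⟩ := htri
  obtain ⟨m, hm, ⟨m1A, m2A, m0A⟩, ⟨m0B, m2B, m1B⟩, ⟨m0X, m1X, m2X⟩⟩ :=
    exists_triangle hbez hQ hN hAB hAX hBX hA hB hX cA cB cX
  have fA := face hm (A := A) 0 1 2 (fun c => by abel) m0A m1A m2A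
  have fB := face hm (A := B) 1 0 2 (fun c => by abel) m1B m0B m2B
  have fX := face hm (A := X) 2 0 1 (fun c => by abel) m2X m0X m1X
  obtain ⟨α, β, γ, hQ'⟩ := conic_triangle hm hQ fA fB fX cA cB cX
  obtain ⟨M₀, hM₀⟩ : ∃ M₀, M₀ = ev (gp x y) (m 0) := ⟨_, rfl⟩
  obtain ⟨M₁, hM₁⟩ : ∃ M₁, M₁ = ev (gp x y) (m 1) := ⟨_, rfl⟩
  obtain ⟨M₂, hM₂⟩ : ∃ M₂, M₂ = ev (gp x y) (m 2) := ⟨_, rfl⟩
  have n0 : M₀ ≠ 0 := hM₀ ▸ M_ne hxy hm 0
  have n1 : M₁ ≠ 0 := hM₁ ▸ M_ne hxy hm 1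
  have n2 : M₂ ≠ 0 := hM₂ ▸ M_ne hxy hm 2
  obtain ⟨x', hx'⟩ : ∃ x', x' = M₀ / M₁ := ⟨_, rfl⟩
  obtain ⟨y', hy'⟩ : ∃ y', y' = M₀ / M₂ := ⟨_, rfl⟩
  have nx : x' ≠ 0 := hx' ▸ div_ne_zero n0 n1
  have ny : y' ≠ 0 := hy' ▸ div_ne_zero n0 n2
  let E := IntermediateField.adjoin ℂ ({x, y} : Set K)
  have hM₀E : M₀ ∈ E := hM₀ ▸ ev_mem' x y (m 0)
  have hM₁E : M₁ ∈ E := hM₁ ▸ ev_mem' x y (m 1)
  have hM₂E : M₂ ∈ E := hM₂ ▸ ev_mem' x y (m 2)
  have hcE : ∀ c : ℂ, algebraMap ℂ K c ∈ E := fun c => E.algebraMap_mem c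
  have hxE : x' ∈ E := hx' ▸ div_mem hM₀E hM₁E
  have hyE : y' ∈ E := hy' ▸ div_mem hM₀E hM₂E
  have hE' : IntermediateField.adjoin ℂ ({x', y'} : Set K) ≤ E := by
    rw [IntermediateField.adjoin_le_iff]
    rintro z (rfl | hz)
    · exact hxE
    · rw [Set.mem_singleton_iff] at hz
      rw [hz]
      exact hyE
  -- the factors
  have evg : ∀ a b c : ℂ, ev (gp x' y') ![a, b, c] =
      algebraMap ℂ K a + algebraMap ℂ K b * x' + algebraMap ℂ K c * y' := by
    intro a b c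
    rw [ev_gp]
    rfl
  have facC : Fac E x' y' M₀ 2 (aeval (gp x y) Q) := by
    have hval : aeval (gp x y) Q = algebraMap ℂ K α * (M₁ * M₂) + algebraMap ℂ K β * (M₀ * M₂) +
        algebraMap ℂ K γ * (M₀ * M₁) := by
      rw [hQ']
      simp only [map_add, map_mul, aeval_lin, ← hM₀, ← hM₁, ← hM₂, algHom_C]
    refine fac_mk hxE hyE nx ny true true ![α, β, γ] (vec_ne_zero ?_) ?_
    · rintro ⟨rfl, rfl, rfl⟩
      apply hv0
      rw [map_zero] at hval
      have : v ^ 2 = 0 := by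
        rw [hv, hval]
        ring
      exact pow_eq_zero_iff (two_ne_zero) |>.1 this
    · rw [hval, evg, if_pos rfl, if_pos rfl, hx', hy']
      field_simp
  have facL : ∀ i, Fac E x' y' M₀ 1 (ev (gp x y) (l i)) := by
    intro i
    rcases hl i with h | h | h
    · obtain ⟨b, c, hbc⟩ := fA _ h
      refine fac_mk hxE hyE nx ny true true ![0, c, b] (vec_ne_zero ?_) ?_
      · rintro ⟨-, rfl, rfl⟩
        apply hl0 i
        rw [hbc, zero_smul, zero_smul, add_zero]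
      · rw [hbc, ev_add, ev_smul, ev_smul, evg, if_pos rfl, if_pos rfl, hx', hy', ← hM₁, ← hM₂,
          map_zero]
        field_simp
        ring
    · obtain ⟨b, c, hbc⟩ := fB _ h
      refine fac_mk hxE hyE nx ny false true ![c, 0, b] (vec_ne_zero ?_) ?_
      · rintro ⟨rfl, -, rfl⟩
        apply hl0 i
        rw [hbc, zero_smul, zero_smul, add_zero]
      · rw [hbc, ev_add, ev_smul, ev_smul, evg, if_neg (by decide), if_pos rfl, hy', ← hM₀, ← hM₂,
          map_zero]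
        field_simp
        ring
    · obtain ⟨b, c, hbc⟩ := fX _ h
      refine fac_mk hxE hyE nx ny true false ![c, b, 0] (vec_ne_zero ?_) ?_
      · rintro ⟨rfl, rfl, -⟩
        apply hl0 i
        rw [hbc, zero_smul, zero_smul, add_zero]
      · rw [hbc, ev_add, ev_smul, ev_smul, evg, if_pos rfl, if_neg (by decide), hx', ← hM₀, ← hM₁,
          map_zero]
        field_simp
        ring
  obtain ⟨gC, hgCE, hgC0, wC, hwC, hfC⟩ := facC
  choose gl hglE hgl0 wl hwl hfl using facL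
  obtain ⟨G, hG⟩ : ∃ G, G = M₀ ^ (k + 1) * gC * ∏ i, gl i := ⟨_, rfl⟩
  have hG0 : G ≠ 0 := by
    rw [hG]
    exact mul_ne_zero (mul_ne_zero (pow_ne_zero _ n0) hgC0)
      (Finset.prod_ne_zero_iff.2 fun i _ => hgl0 i)
  have hGE : G ∈ E := by
    rw [hG]
    exact mul_mem (mul_mem (pow_mem hM₀E _) hgCE) (_root_.prod_mem fun i _ => hglE i)
  obtain ⟨L'', hL''⟩ : ∃ L'' : Option (Fin (2 * k)) × Fin 3 → V3,
      L'' = fun p => p.1.elim (wC p.2) (fun i => wl i p.2) := ⟨_, rfl⟩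
  have hL0 : ∀ p, L'' p ≠ 0 := by
    rw [hL'']
    rintro ⟨o, j⟩
    cases o with
    | none => exact hwC j
    | some i => exact hwl i j
  have hw2 : (v / G) ^ 2 = ∏ p ∈ (Finset.univ : Finset (Option (Fin (2 * k)) × Fin 3)),
      ev (gp x' y') (L'' p) := by
    have h1 : ∏ p : Option (Fin (2 * k)) × Fin 3, ev (gp x' y') (L'' p) =
        (∏ j, ev (gp x' y') (wC j)) * ∏ i, ∏ j, ev (gp x' y') (wl i j) := by
      rw [Fintype.prod_prod_type, Fintype.prod_option, hL'']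
      rfl
    rw [h1, div_pow, hv, hfC, Finset.prod_congr rfl fun i _ => hfl i, Finset.prod_mul_distrib,
      Finset.prod_mul_distrib, Finset.prod_const, Finset.prod_pow, Finset.card_univ,
      Fintype.card_fin, pow_one, hG]
    have h2 : (∏ i, gl i) ≠ 0 := Finset.prod_ne_zero_iff.2 fun i _ => hgl0 i
    field_simp
    ring
  -- the new coordinates
  have hxy' : AlgebraicIndependent ℂ ![x', y'] ∧
      ∀ L : IntermediateField ℂ K, x' ∈ L → y' ∈ L → x ∈ L ∧ y ∈ L := by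
    have h1 : ∀ L : IntermediateField ℂ K, x' ∈ L → y' ∈ L → x ∈ L ∧ y ∈ L := by
      intro L h1 h2
      have h3 := lin_mem hxy hm (L := L) (by
        rw [← hM₀, ← hM₁]
        have : M₁ / M₀ = x'⁻¹ := by rw [hx', inv_div]
        rw [this]
        exact inv_mem h1) (by
        rw [← hM₀, ← hM₂]
        have : M₂ / M₀ = y'⁻¹ := by rw [hy', inv_div]
        rw [this]
        exact inv_mem h2)
      exact h3.2
    refine ⟨?_, h1⟩
    obtain ⟨h2, h3⟩ := h1 (IntermediateField.adjoin ℂ {x', y'})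
      (IntermediateField.subset_adjoin _ _ (by simp)) (IntermediateField.subset_adjoin _ _ (by simp))
    exact algInd_of_mem hxy h2 h3
  -- the forms
  have hder : ∀ D : Derivation ℂ K K,
      D x' = (M₁ * D M₀ - M₀ * D M₁) / M₁ ^ 2 ∧ D y' = (M₂ * D M₀ - M₀ * D M₂) / M₂ ^ 2 := by
    intro D
    constructor
    · have h1 : M₀ = x' * M₁ := by
        rw [hx']
        field_simp
      have h2 : D M₀ = x' * D M₁ + M₁ * D x' := by
        conv_lhs => rw [h1]
        rw [D.leibniz, smul_eq_mul, smul_eq_mul]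
      rw [eq_div_iff (pow_ne_zero 2 n1), h2]
      rw [hx']
      field_simp
      ring
    · have h1 : M₀ = y' * M₂ := by
        rw [hy']
        field_simp
      have h2 : D M₀ = y' * D M₂ + M₂ * D y' := by
        conv_lhs => rw [h1]
        rw [D.leibniz, smul_eq_mul, smul_eq_mul]
      rw [eq_div_iff (pow_ne_zero 2 n2), h2]
      rw [hy']
      field_simp
      ring
  obtain ⟨J, hJ⟩ : ∃ J, J = M₀ * algebraMap ℂ K (Matrix.det (Matrix.of m)) / (M₁ ^ 2 * M₂ ^ 2) :=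
    ⟨_, rfl⟩
  have hdet : Matrix.det (Matrix.of m) ≠ 0 := by
    have h1 : LinearIndependent ℂ (Matrix.of m).row := hm
    rw [Matrix.linearIndependent_rows_iff_isUnit, Matrix.isUnit_iff_isUnit_det] at h1
    exact h1.ne_zero
  have hJ0 : J ≠ 0 := by
    rw [hJ]
    exact div_ne_zero (mul_ne_zero n0 ((map_ne_zero _).2 hdet))
      (mul_ne_zero (pow_ne_zero _ n1) (pow_ne_zero _ n2))
  have hJE : J ∈ E := by
    rw [hJ]
    exact div_mem (mul_mem hM₀E (hcE _)) (mul_mem (pow_mem hM₁E _) (pow_mem hM₂E _))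
  have hwedge : ∀ D₁ D₂ : Derivation ℂ K K, wedge D₁ D₂ x' y' = J * wedge D₁ D₂ x y := by
    intro D₁ D₂
    have h1 := Del_basis D₁ D₂ (gp x y) m
    rw [Del_gp] at h1
    unfold Del at h1
    dsimp only at h1
    rw [← hM₀, ← hM₁, ← hM₂] at h1
    have h2 : J * wedge D₁ D₂ x y = M₀ * (algebraMap ℂ K (Matrix.det (Matrix.of m)) *
        wedge D₁ D₂ x y) / (M₁ ^ 2 * M₂ ^ 2) := by
      rw [hJ]
      ring
    rw [h2, ← h1]
    unfold wedge
    rw [(hder D₁).1, (hder D₁).2, (hder D₂).1, (hder D₂).2]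
    field_simp
    ring
  have hpg' : NoTwo x' y' (v / G) := by
    intro A' hA' hreg
    have h1 := hpg (J * A' * G) (mul_mem (mul_mem hJE (hE' hA')) hGE) (fun P hP => by
      have h2 : (fun D : Fin 2 → Derivation ℂ K K => wedge (D 0) (D 1) x y * (J * A' * G / v)) =
          fun D : Fin 2 → Derivation ℂ K K => wedge (D 0) (D 1) x' y' * (A' / (v / G)) := by
        funext D
        rw [hwedge]
        field_simp
      rw [h2]
      exact hreg P hP)
    rcases mul_eq_zero.1 h1 with h | h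
    · exact (mul_eq_zero.1 h).resolve_left hJ0
    · exact absurd h hG0
  obtain ⟨a, haE, b, hbE, hab⟩ : ∃ a ∈ E, ∃ b ∈ E, ∀ D : Derivation ℂ K K,
      D x' = a * D x + b * D y := by
    refine ⟨(M₁ * algebraMap ℂ K (m 0 1) - M₀ * algebraMap ℂ K (m 1 1)) / M₁ ^ 2,
      div_mem (sub_mem (mul_mem hM₁E (hcE _)) (mul_mem hM₀E (hcE _))) (pow_mem hM₁E _),
      (M₁ * algebraMap ℂ K (m 0 2) - M₀ * algebraMap ℂ K (m 1 2)) / M₁ ^ 2,
      div_mem (sub_mem (mul_mem hM₁E (hcE _)) (mul_mem hM₀E (hcE _))) (pow_mem hM₁E _), ?_⟩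
    intro D
    have e0 : D M₀ = _ := hM₀ ▸ der_ev D x y (m 0)
    have e1 : D M₁ = _ := hM₁ ▸ der_ev D x y (m 1)
    rw [(hder D).1, e0, e1]
    ring
  obtain ⟨c, hcE', d, hdE, hcd⟩ : ∃ c ∈ E, ∃ d ∈ E, ∀ D : Derivation ℂ K K,
      D y' = c * D x + d * D y := by
    refine ⟨(M₂ * algebraMap ℂ K (m 0 1) - M₀ * algebraMap ℂ K (m 2 1)) / M₂ ^ 2,
      div_mem (sub_mem (mul_mem hM₂E (hcE _)) (mul_mem hM₀E (hcE _))) (pow_mem hM₂E _),
      (M₂ * algebraMap ℂ K (m 0 2) - M₀ * algebraMap ℂ K (m 2 2)) / M₂ ^ 2,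
      div_mem (sub_mem (mul_mem hM₂E (hcE _)) (mul_mem hM₀E (hcE _))) (pow_mem hM₂E _), ?_⟩
    intro D
    have e0 : D M₀ = _ := hM₀ ▸ der_ev D x y (m 0)
    have e2 : D M₂ = _ := hM₂ ▸ der_ev D x y (m 2)
    rw [(hder D).2, e0, e2]
    ring
  have hdetJ : a * d - b * c = J := by
    obtain ⟨D, h0x, h0y, h1x, h1y⟩ := exists_ders hxy
    have h1 := hwedge (D 0) (D 1)
    unfold wedge at h1
    rw [hab, hab, hcd, hcd, h0x, h0y, h1x, h1y] at h1
    linear_combination h1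
  have hq' : NoOne x' y' (v / G) := by
    intro A' hA' B' hB' hreg
    have hA'' := hE' hA'
    have hB'' := hE' hB'
    obtain ⟨h1, h2⟩ := hq ((A' * a + B' * c) * G)
      (mul_mem (add_mem (mul_mem hA'' haE) (mul_mem hB'' hcE')) hGE)
      ((A' * b + B' * d) * G)
      (mul_mem (add_mem (mul_mem hA'' hbE) (mul_mem hB'' hdE)) hGE) (fun P hP D hD => by
      have h2 : ((A' * a + B' * c) * G * D x + (A' * b + B' * d) * G * D y) / v =
          (A' * D x' + B' * D y') / (v / G) := by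
        rw [hab, hcd]
        field_simp
        ring
      rw [h2]
      exact hreg P hP D hD)
    have h3 := (mul_eq_zero.1 h1).resolve_right hG0
    have h4 := (mul_eq_zero.1 h2).resolve_right hG0
    constructor
    · have h5 : A' * J = 0 := by
        rw [← hdetJ]
        linear_combination d * h3 - c * h4
      exact (mul_eq_zero.1 h5).resolve_right hJ0
    · have h5 : B' * J = 0 := by
        rw [← hdetJ]
        linear_combination a * h4 - b * h3
      exact (mul_eq_zero.1 h5).resolve_right hJ0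
  obtain ⟨L, hxL, hyL, hvL, hL⟩ := good_sqrt' hxy'.1 hL0 Finset.univ hpg' hq' hw2
  obtain ⟨hx, hy⟩ := hxy'.2 L hxL hyL
  refine ⟨L, hx, hy, ?_, hL⟩
  have hEL : E ≤ L := by
    rw [IntermediateField.adjoin_le_iff]
    rintro z (rfl | hz)
    · exact hx
    · rw [Set.mem_singleton_iff] at hz
      rw [hz]
      exact hy
  have h1 : v = v / G * G := by
    field_simp
  rw [h1]
  exact mul_mem hvL (hEL hGE)

end Pool.Agent.J4H64.LC
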