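import Pool.Agent.J4H64.LC.Enr2

/-!
# Project LC, second stage: the Enriques field
-/

set_option autoImplicit false

open MvPolynomial FF

namespace Pool.Agent.J4H64.LC

open Pool.Agent.J4H13.BC Pool.Agent.J4H13.LA Pool.Agent.J4H13.BD Pool.Agent.J4H13.LC
  Pool.Agent.W602.GT Pool.Agent.W603.LV

variable {K : Type} [Field K] [Algebra ℂ K]

/-- the conclusion for a subfield `M` -/
def EnrConcl (M : IntermediateField ℂ K) : Prop :=
  ∃ (F₀ : IntermediateField ℂ K) (δ ν : K), δ ≠ 0 ∧ ν ≠ 0 ∧ δ ^ 2 ∈ F₀ ∧ ν ^ 2 ∈ F₀ ∧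
      M = F₀ ⊔ IntermediateField.adjoin ℂ ({δ, ν} : Set K) ∧
      Emb F₀ ∧ Emb (F₀ ⊔ IntermediateField.adjoin ℂ ({δ} : Set K)) ∧
      Emb (F₀ ⊔ IntermediateField.adjoin ℂ ({ν} : Set K)) ∧
      Emb (F₀ ⊔ IntermediateField.adjoin ℂ ({δ * ν} : Set K))

theorem enr_core {X Y : K} (hXY : AlgebraicIndependent ℂ ![X, Y]) {a b e μ κ : ℂ}
    (hκ : κ = a + b + e - μ) (h1 : ¬ (μ = 2 * e ∧ b = e)) (h2 : ¬ (μ = 2 * a ∧ e = a))
    (h3 : ¬ (μ = 2 * a ∧ b = a)) {v : K} (hv0 : v ≠ 0)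
    (hv : v ^ 2 = -X * (1 - X) * (1 - X * Y ^ 2) *
      (X * (algebraMap ℂ K κ * X - algebraMap ℂ K b) * Y ^ 2 +
        algebraMap ℂ K (2 * e - μ) * X * Y + (algebraMap ℂ K e - algebraMap ℂ K a * X))) :
    EnrConcl (IntermediateField.adjoin ℂ ({X, Y, v} : Set K)) := by
  classical
  have : CharZero K := charZero_of_C K
  obtain ⟨ck, hck⟩ : ∃ c, c = algebraMap ℂ K κ := ⟨_, rfl⟩
  obtain ⟨cb, hcb⟩ : ∃ c, c = algebraMap ℂ K b := ⟨_, rfl⟩
  obtain ⟨ce, hce⟩ : ∃ c, c = algebraMap ℂ K e := ⟨_, rfl⟩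
  obtain ⟨ca, hca⟩ : ∃ c, c = algebraMap ℂ K a := ⟨_, rfl⟩
  obtain ⟨dd, hdd⟩ : ∃ c : ℂ, c = 2 * e - μ := ⟨_, rfl⟩
  obtain ⟨cd, hcd⟩ : ∃ c, c = algebraMap ℂ K dd := ⟨_, rfl⟩
  rw [← hdd, ← hck, ← hcb, ← hce, ← hca, ← hcd] at hv
  obtain ⟨G, hG⟩ : ∃ G, G = X * (ck * X - cb) * Y ^ 2 + cd * X * Y + (ce - ca * X) := ⟨_, rfl⟩
  rw [← hG] at hv
  have hprod : -X * (1 - X) * (1 - X * Y ^ 2) * G ≠ 0 := by
    rw [← hv]
    exact pow_ne_zero 2 hv0
  have hG0 : G ≠ 0 := right_ne_zero_of_mul hprod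
  have hXY2 : 1 - X * Y ^ 2 ≠ 0 := right_ne_zero_of_mul (left_ne_zero_of_mul hprod)
  have hX1 : 1 - X ≠ 0 := right_ne_zero_of_mul (left_ne_zero_of_mul (left_ne_zero_of_mul hprod))
  have hX0 : X ≠ 0 := neg_ne_zero.1
    (left_ne_zero_of_mul (left_ne_zero_of_mul (left_ne_zero_of_mul hprod)))
  obtain ⟨θ, hθ⟩ : ∃ θ, θ = (1 - X * Y ^ 2) / G := ⟨_, rfl⟩
  have hθ0 : θ ≠ 0 := hθ ▸ div_ne_zero hXY2 hG0
  have hθG : θ * G = 1 - X * Y ^ 2 := by
    rw [hθ]
    field_simp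
  obtain ⟨ν, hν⟩ : ∃ ν, ν = v / G := ⟨_, rfl⟩
  have hν0 : ν ≠ 0 := hν ▸ div_ne_zero hv0 hG0
  have hν2 : ν ^ 2 = -X * (1 - X) * θ := by
    rw [hν, div_pow, hv, hθ]
    field_simp
  obtain ⟨L₁, hL₁⟩ : ∃ L₁, L₁ = X + θ * (X * (ck * X - cb)) := ⟨_, rfl⟩
  have hquad : L₁ * Y ^ 2 + θ * (cd * X) * Y + (θ * (ce - ca * X) - 1) = 0 := by
    rw [hL₁]
    have h4 := hθG
    rw [hG] at h4
    linear_combination h4
  -- the leading coefficient
  have hL₁0 : L₁ ≠ 0 := by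
    intro h0
    have h4 : cd * (X * Y) + (ck - ca) * X + (ce - cb) = 0 := by
      have h5 : X * (cd * (X * Y) + (ck - ca) * X + (ce - cb)) = G * L₁ := by
        rw [hL₁]
        linear_combination (-X * (ck * X - cb)) * hθG + (-X) * hG
      rw [h0, mul_zero] at h5
      exact (mul_eq_zero.1 h5).resolve_left hX0
    have h5 := eval_of_ind hXY (P := C dd * (MvPolynomial.X 0 * MvPolynomial.X 1) +
      C (κ - a) * MvPolynomial.X 0 + C (e - b)) (by
        simp only [map_add, map_mul, aeval_X, algHom_C]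
        change algebraMap ℂ K dd * (X * Y) + algebraMap ℂ K (κ - a) * X +
          algebraMap ℂ K (e - b) = 0
        rw [← hcd, map_sub, map_sub, ← hck, ← hca, ← hce, ← hcb]
        exact h4)
    have e0 := h5 0 0
    have e1 := h5 1 0
    have e2 := h5 1 1
    simp only [map_add, map_mul, eval_C, eval_X] at e0 e1 e2
    change dd * (0 * 0) + (κ - a) * 0 + (e - b) = 0 at e0
    change dd * (1 * 0) + (κ - a) * 1 + (e - b) = 0 at e1
    change dd * (1 * 1) + (κ - a) * 1 + (e - b) = 0 at e2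
    exact h1 ⟨by linear_combination e1 - e2 + hdd, by linear_combination -e0⟩
  obtain ⟨δ, hδ⟩ : ∃ δ, δ = 2 * L₁ * Y + θ * (cd * X) := ⟨_, rfl⟩
  obtain ⟨Qf, hQf⟩ : ∃ Qf, Qf = cd ^ 2 * X * θ ^ 2 + 4 * (1 + θ * (ck * X - cb)) *
      (1 - θ * (ce - ca * X)) := ⟨_, rfl⟩
  have hδ2 : δ ^ 2 = X * Qf := by
    rw [hδ, hQf]
    have h4 : L₁ = X * (1 + θ * (ck * X - cb)) := by
      rw [hL₁]
      ring
    have h5 : (2 * L₁ * Y + θ * (cd * X)) ^ 2 =
        θ ^ 2 * (cd * X) ^ 2 - 4 * L₁ * (θ * (ce - ca * X) - 1) := by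
      linear_combination (4 * L₁) * hquad
    rw [h5, h4]
    ring
  -- the fields
  obtain ⟨F₀, hF₀⟩ : ∃ F₀, F₀ = IntermediateField.adjoin ℂ ({X, θ} : Set K) := ⟨_, rfl⟩
  have hXF : X ∈ F₀ := by
    rw [hF₀]
    exact IntermediateField.subset_adjoin _ _ (by simp)
  have hθF : θ ∈ F₀ := by
    rw [hF₀]
    exact IntermediateField.subset_adjoin _ _ (by simp)
  have h4m : ∀ M : IntermediateField ℂ K, (4 : K) ∈ M := fun M => by
    have := M.algebraMap_mem 4
    rwa [map_ofNat] at this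
  have h2m : ∀ M : IntermediateField ℂ K, (2 : K) ∈ M := fun M => by
    have := M.algebraMap_mem 2
    rwa [map_ofNat] at this
  have hcm : ∀ (M : IntermediateField ℂ K), ck ∈ M ∧ cb ∈ M ∧ ce ∈ M ∧ ca ∈ M ∧ cd ∈ M := by
    intro M
    rw [hck, hcb, hce, hca, hcd]
    exact ⟨M.algebraMap_mem _, M.algebraMap_mem _, M.algebraMap_mem _, M.algebraMap_mem _,
      M.algebraMap_mem _⟩
  have hQm : ∀ M : IntermediateField ℂ K, X ∈ M → θ ∈ M → Qf ∈ M := by
    intro M hX hθ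
    obtain ⟨m1, m2, m3, m4, m5⟩ := hcm M
    rw [hQf]
    exact add_mem (mul_mem (mul_mem (pow_mem m5 2) hX) (pow_mem hθ 2))
      (mul_mem (mul_mem (h4m M) (add_mem (one_mem M) (mul_mem hθ (sub_mem (mul_mem m1 hX) m2))))
        (sub_mem (one_mem M) (mul_mem hθ (sub_mem m3 (mul_mem m4 hX)))))
  have hL₁m : ∀ M : IntermediateField ℂ K, X ∈ M → θ ∈ M → L₁ ∈ M := by
    intro M hX hθ
    obtain ⟨m1, m2, m3, m4, m5⟩ := hcm M
    rw [hL₁]
    exact add_mem hX (mul_mem hθ (mul_mem hX (sub_mem (mul_mem m1 hX) m2)))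
  have hδF : δ ^ 2 ∈ F₀ := by
    rw [hδ2]
    exact mul_mem hXF (hQm F₀ hXF hθF)
  have hνF : ν ^ 2 ∈ F₀ := by
    rw [hν2]
    exact mul_mem (mul_mem (neg_mem hXF) (sub_mem (one_mem _) hXF)) hθF
  have hY : Y = (δ - θ * (cd * X)) / (2 * L₁) := by
    rw [eq_div_iff (mul_ne_zero two_ne_zero hL₁0), hδ]
    ring
  have hYm : ∀ M : IntermediateField ℂ K, X ∈ M → θ ∈ M → δ ∈ M → Y ∈ M := by
    intro M hX hθ hδ
    rw [hY]
    exact div_mem (sub_mem hδ (mul_mem hθ (mul_mem (hcm M).2.2.2.2 hX)))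
      (mul_mem (h2m M) (hL₁m M hX hθ))
  have hGm : ∀ M : IntermediateField ℂ K, X ∈ M → Y ∈ M → G ∈ M := by
    intro M hX hY
    obtain ⟨m1, m2, m3, m4, m5⟩ := hcm M
    rw [hG]
    exact add_mem (add_mem (mul_mem (mul_mem hX (sub_mem (mul_mem m1 hX) m2)) (pow_mem hY 2))
      (mul_mem (mul_mem m5 hX) hY)) (sub_mem m3 (mul_mem m4 hX))
  have hθm : ∀ M : IntermediateField ℂ K, X ∈ M → Y ∈ M → θ ∈ M := by
    intro M hX hY
    rw [hθ]
    exact div_mem (sub_mem (one_mem M) (mul_mem hX (pow_mem hY 2))) (hGm M hX hY)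
  have hδm : ∀ M : IntermediateField ℂ K, X ∈ M → Y ∈ M → δ ∈ M := by
    intro M hX hY
    rw [hδ]
    exact add_mem (mul_mem (mul_mem (h2m M) (hL₁m M hX (hθm M hX hY))) hY)
      (mul_mem (hθm M hX hY) (mul_mem (hcm M).2.2.2.2 hX))
  -- `X`, `θ` are independent
  have hXθ : AlgebraicIndependent ℂ ![X, θ] := by
    let F := IntermediateField.adjoin ℂ ({X, θ} : Set K)
    have hXF' : X ∈ F := IntermediateField.subset_adjoin _ _ (by simp)
    have hθF' : θ ∈ F := IntermediateField.subset_adjoin _ _ (by simp)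
    let Lc := algebraicClosure F K
    have hFL : ∀ z ∈ F, z ∈ Lc := fun z hz => Lc.algebraMap_mem ⟨z, hz⟩
    have hδL : δ ∈ Lc := by
      rw [mem_algebraicClosure_iff]
      apply IsAlgebraic.of_pow (n := 2) two_pos
      have h5 : δ ^ 2 ∈ F := by
        rw [hδ2]
        exact mul_mem hXF' (hQm F hXF' hθF')
      exact isAlgebraic_algebraMap (A := K) (⟨δ ^ 2, h5⟩ : F)
    have hYL : Y ∈ Lc := by
      rw [hY]
      exact div_mem (sub_mem hδL (hFL _ (mul_mem hθF' (mul_mem (hcm F).2.2.2.2 hXF'))))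
        (hFL _ (mul_mem (h2m F) (hL₁m F hXF' hθF')))
    exact algInd_of_alg hXY (mem_algebraicClosure_iff.1 (hFL X hXF'))
      (mem_algebraicClosure_iff.1 hYL)
  have hδ0 : δ ≠ 0 := by
    intro h0
    have h4 : Qf = 0 := by
      rw [h0, zero_pow two_ne_zero] at hδ2
      exact (mul_eq_zero.1 hδ2.symm).resolve_left hX0
    have h5 := eval_of_ind hXθ (P := C dd ^ 2 * MvPolynomial.X 0 *
      MvPolynomial.X 1 ^ 2 + C 4 * (1 + MvPolynomial.X 1 * (C κ * MvPolynomial.X 0 - C b)) *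
      (1 - MvPolynomial.X 1 * (C e - C a * MvPolynomial.X 0))) (by
        simp only [map_add, map_sub, map_mul, map_pow, map_one, aeval_X, algHom_C]
        change algebraMap ℂ K dd ^ 2 * X * θ ^ 2 + algebraMap ℂ K 4 *
          (1 + θ * (algebraMap ℂ K κ * X - algebraMap ℂ K b)) *
          (1 - θ * (algebraMap ℂ K e - algebraMap ℂ K a * X)) = 0
        rw [← hcd, ← hck, ← hca, ← hce, ← hcb, map_ofNat, ← h4, hQf])
    have e0 := h5 0 0
    simp only [map_add, map_sub, map_mul, map_pow, map_one, eval_C, eval_X] at e0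
    change dd ^ 2 * 0 * 0 ^ 2 + 4 * (1 + 0 * (κ * 0 - b)) * (1 - 0 * (e - a * 0)) = 0 at e0
    norm_num at e0
  have hXm : ∀ z : K, X ∈ IntermediateField.adjoin ℂ ({X, z} : Set K) := fun z =>
    IntermediateField.subset_adjoin _ _ (by simp)
  have hzm : ∀ z : K, z ∈ IntermediateField.adjoin ℂ ({X, z} : Set K) := fun z =>
    IntermediateField.subset_adjoin _ _ (by simp)
  have hle : ∀ (M : IntermediateField ℂ K) (S : Set K), (∀ z ∈ S, z ∈ M) → X ∈ M → θ ∈ M →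
      F₀ ⊔ IntermediateField.adjoin ℂ S ≤ M := by
    intro M S hS hX hθ
    rw [sup_le_iff, IntermediateField.adjoin_le_iff, hF₀, IntermediateField.adjoin_le_iff]
    refine ⟨?_, hS⟩
    rintro z (rfl | rfl)
    · exact hX
    · exact hθ
  refine ⟨F₀, δ, ν, hδ0, hν0, hδF, hνF, ?_, ?_, ?_, ?_, ?_⟩
  · apply le_antisymm
    · rw [IntermediateField.adjoin_le_iff]
      have m1 : ∀ z ∈ F₀, z ∈ F₀ ⊔ IntermediateField.adjoin ℂ ({δ, ν} : Set K) := fun z hz =>
        (le_sup_left : F₀ ≤ F₀ ⊔ IntermediateField.adjoin ℂ ({δ, ν} : Set K)) hz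
      have m2 : ∀ z ∈ IntermediateField.adjoin ℂ ({δ, ν} : Set K),
          z ∈ F₀ ⊔ IntermediateField.adjoin ℂ ({δ, ν} : Set K) := fun z hz =>
        (le_sup_right : _ ≤ F₀ ⊔ IntermediateField.adjoin ℂ ({δ, ν} : Set K)) hz
      have mδ := m2 δ (IntermediateField.subset_adjoin _ _ (by simp))
      have mν := m2 ν (IntermediateField.subset_adjoin _ _ (by simp))
      have mY := hYm _ (m1 X hXF) (m1 θ hθF) mδ
      rintro z (rfl | rfl | rfl)
      · exact m1 _ hXF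
      · exact mY
      · have h5 : z = ν * G := by
          rw [hν]
          field_simp
        change z ∈ F₀ ⊔ IntermediateField.adjoin ℂ ({δ, ν} : Set K)
        rw [h5]
        exact mul_mem mν (hGm _ (m1 X hXF) mY)
    · have mX : X ∈ IntermediateField.adjoin ℂ ({X, Y, v} : Set K) :=
        IntermediateField.subset_adjoin _ _ (by simp)
      have mY : Y ∈ IntermediateField.adjoin ℂ ({X, Y, v} : Set K) :=
        IntermediateField.subset_adjoin _ _ (by simp)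
      have mv : v ∈ IntermediateField.adjoin ℂ ({X, Y, v} : Set K) :=
        IntermediateField.subset_adjoin _ _ (by simp)
      refine hle _ _ ?_ mX (hθm _ mX mY)
      rintro z (rfl | rfl)
      · exact hδm _ mX mY
      · rw [hν]
        exact div_mem mv (hGm _ mX mY)
  · refine emb_mono ?_ ⟨2, embed_of_two hXY (hXm Y) (hzm Y)⟩
    rw [hF₀, IntermediateField.adjoin_le_iff]
    rintro z (rfl | rfl)
    · exact hXm Y
    · exact hθm _ (hXm Y) (hzm Y)
  · refine emb_mono (hle _ _ ?_ (hXm Y) (hθm _ (hXm Y) (hzm Y)))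
      ⟨2, embed_of_two hXY (hXm Y) (hzm Y)⟩
    rintro z rfl
    exact hδm _ (hXm Y) (hzm Y)
  · have hθν : θ ∈ IntermediateField.adjoin ℂ ({X, ν} : Set K) := by
      have h5 : θ = -(ν ^ 2 / (X * (1 - X))) := by
        rw [hν2]
        field_simp
      rw [h5]
      exact neg_mem (div_mem (pow_mem (hzm ν) 2)
        (mul_mem (hXm ν) (sub_mem (one_mem _) (hXm ν))))
    refine emb_mono (hle _ _ ?_ (hXm ν) hθν) ⟨2, embed_of_two hXθ (hXm ν) hθν⟩
    rintro z rfl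
    exact hzm _
  · have hXs : X ∈ F₀ ⊔ IntermediateField.adjoin ℂ ({δ * ν} : Set K) :=
      (le_sup_left : F₀ ≤ _) hXF
    have hθs : θ ∈ F₀ ⊔ IntermediateField.adjoin ℂ ({δ * ν} : Set K) :=
      (le_sup_left : F₀ ≤ _) hθF
    refine emb_three hXθ hX1 hθ0 hκ h2 h3 (ω := δ * ν / X) ?_ ?_ hXs hθs
    · rw [← hdd, ← hck, ← hcb, ← hce, ← hca, ← hcd, ← hQf, div_pow, mul_pow, hδ2, hν2]
      field_simp
    · refine hle _ _ ?_ (IntermediateField.subset_adjoin _ _ (by simp))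
        (IntermediateField.subset_adjoin _ _ (by simp))
      rintro z rfl
      have h5 : δ * ν / X * X = δ * ν := by
        field_simp
      have h6 : δ * ν / X * X ∈ IntermediateField.adjoin ℂ ({X, θ, δ * ν / X} : Set K) :=
        mul_mem (IntermediateField.subset_adjoin _ _ (by simp))
          (IntermediateField.subset_adjoin _ _ (by simp))
      rwa [h5] at h6

theorem t_ENR : S_ENR := by
  classical
  intro K _ _ x y hxy m hm a b e μ h1 h2 h3 v hv0 hv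
  change EnrConcl _
  obtain ⟨p, hp⟩ : ∃ p, p = ev (gp x y) (m 0) := ⟨_, rfl⟩
  obtain ⟨q, hq⟩ : ∃ q, q = ev (gp x y) (m 1) := ⟨_, rfl⟩
  obtain ⟨r, hr⟩ : ∃ r, r = ev (gp x y) (m 2) := ⟨_, rfl⟩
  rw [← hp, ← hq, ← hr] at hv
  have hne : cub a b e μ p q r * sev p q r ≠ 0 := by
    rw [← hv]
    exact pow_ne_zero 2 hv0
  have hsev : sev p q r ≠ 0 := right_ne_zero_of_mul hne
  unfold sev at hsev
  have nqr : q + r ≠ 0 := right_ne_zero_of_mul hsev
  have hsev1 := left_ne_zero_of_mul hsev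
  have npr : p + r ≠ 0 := right_ne_zero_of_mul hsev1
  have hsev2 := left_ne_zero_of_mul hsev1
  have npq : p + q ≠ 0 := right_ne_zero_of_mul hsev2
  have hsev3 := left_ne_zero_of_mul hsev2
  have ns : p + q + r ≠ 0 := right_ne_zero_of_mul hsev3
  have hsev4 := left_ne_zero_of_mul hsev3
  have nr : r ≠ 0 := right_ne_zero_of_mul hsev4
  have nq : q ≠ 0 := right_ne_zero_of_mul (left_ne_zero_of_mul hsev4)
  have np : p ≠ 0 := left_ne_zero_of_mul (left_ne_zero_of_mul hsev4)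
  obtain ⟨X, hX⟩ : ∃ X, X = -(q * r) / (p * (p + q + r)) := ⟨_, rfl⟩
  obtain ⟨Y, hY⟩ : ∃ Y, Y = p / q := ⟨_, rfl⟩
  obtain ⟨V, hV⟩ : ∃ V, V = v * (p + q) / ((p + q + r) ^ 3 * q * p ^ 2) := ⟨_, rfl⟩
  have hV0 : V ≠ 0 := by
    rw [hV]
    exact div_ne_zero (mul_ne_zero hv0 npq)
      (mul_ne_zero (mul_ne_zero (pow_ne_zero 3 ns) nq) (pow_ne_zero 2 np))
  have h1XY : 1 + X * Y = (p + q) / (p + q + r) := by
    rw [hX, hY]
    field_simp
    ring
  have n1XY : 1 + X * Y ≠ 0 := by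
    rw [h1XY]
    exact div_ne_zero npq ns
  have hrp : r / p = -(X * (Y + 1)) / (1 + X * Y) := by
    rw [h1XY, hX, hY]
    field_simp
  -- the elements `x`, `y` in terms of `X`, `Y`
  have hxym : ∀ M : IntermediateField ℂ K, X ∈ M → Y ∈ M →
      p ∈ M ∧ q ∈ M ∧ r ∈ M ∧ x ∈ M ∧ y ∈ M := by
    intro M hXM hYM
    have ht : ev (gp x y) (m 1) / ev (gp x y) (m 0) ∈ M := by
      rw [← hp, ← hq]
      have : q / p = Y⁻¹ := by rw [hY, inv_div]
      rw [this]
      exact inv_mem hYM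
    have hu : ev (gp x y) (m 2) / ev (gp x y) (m 0) ∈ M := by
      rw [← hp, ← hr, hrp]
      exact div_mem (neg_mem (mul_mem hXM (add_mem hYM (one_mem M))))
        (add_mem (one_mem M) (mul_mem hXM hYM))
    obtain ⟨h4, h5, h6⟩ := lin_mem hxy hm ht hu
    rw [← hp] at h4 ht hu
    rw [← hq] at ht
    rw [← hr] at hu
    have h7 : q = q / p * p := by field_simp
    have h8 : r = r / p * p := by field_simp
    refine ⟨h4, ?_, ?_, h5, h6⟩
    · rw [h7]
      exact mul_mem ht h4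
    · rw [h8]
      exact mul_mem hu h4
  have hXYm : ∀ M : IntermediateField ℂ K, p ∈ M → q ∈ M → r ∈ M → X ∈ M ∧ Y ∈ M := by
    intro M h4 h5 h6
    rw [hX, hY]
    exact ⟨div_mem (neg_mem (mul_mem h5 h6)) (mul_mem h4 (add_mem (add_mem h4 h5) h6)),
      div_mem h4 h5⟩
  have hpqr : ∀ M : IntermediateField ℂ K, x ∈ M → y ∈ M → p ∈ M ∧ q ∈ M ∧ r ∈ M := by
    intro M h4 h5
    rw [hp, hq, hr]
    exact ⟨ev_mem h4 h5 _, ev_mem h4 h5 _, ev_mem h4 h5 _⟩
  have hXY : AlgebraicIndependent ℂ ![X, Y] := by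
    obtain ⟨-, -, -, h4, h5⟩ := hxym (IntermediateField.adjoin ℂ {X, Y})
      (IntermediateField.subset_adjoin _ _ (by simp)) (IntermediateField.subset_adjoin _ _ (by simp))
    exact algInd_of_mem hxy h4 h5
  have hfield : IntermediateField.adjoin ℂ ({x, y, v} : Set K) =
      IntermediateField.adjoin ℂ ({X, Y, V} : Set K) := by
    apply le_antisymm
    · rw [IntermediateField.adjoin_le_iff]
      have mX : X ∈ IntermediateField.adjoin ℂ ({X, Y, V} : Set K) :=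
        IntermediateField.subset_adjoin _ _ (by simp)
      have mY : Y ∈ IntermediateField.adjoin ℂ ({X, Y, V} : Set K) :=
        IntermediateField.subset_adjoin _ _ (by simp)
      have mV : V ∈ IntermediateField.adjoin ℂ ({X, Y, V} : Set K) :=
        IntermediateField.subset_adjoin _ _ (by simp)
      obtain ⟨mp, mq, mr, mx, my⟩ := hxym _ mX mY
      rintro z (rfl | rfl | rfl)
      · exact mx
      · exact my
      · have h4 : z = V * ((p + q + r) ^ 3 * q * p ^ 2) / (p + q) := by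
          rw [hV]
          field_simp
        change z ∈ IntermediateField.adjoin ℂ ({X, Y, V} : Set K)
        rw [h4]
        exact div_mem (mul_mem mV (mul_mem (mul_mem (pow_mem (add_mem (add_mem mp mq) mr) 3) mq)
          (pow_mem mp 2))) (add_mem mp mq)
    · rw [IntermediateField.adjoin_le_iff]
      have mx : x ∈ IntermediateField.adjoin ℂ ({x, y, v} : Set K) :=
        IntermediateField.subset_adjoin _ _ (by simp)
      have my : y ∈ IntermediateField.adjoin ℂ ({x, y, v} : Set K) :=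
        IntermediateField.subset_adjoin _ _ (by simp)
      have mv : v ∈ IntermediateField.adjoin ℂ ({x, y, v} : Set K) :=
        IntermediateField.subset_adjoin _ _ (by simp)
      obtain ⟨mp, mq, mr⟩ := hpqr _ mx my
      obtain ⟨mX, mY⟩ := hXYm _ mp mq mr
      rintro z (rfl | rfl | rfl)
      · exact mX
      · exact mY
      · change z ∈ IntermediateField.adjoin ℂ ({x, y, v} : Set K)
        rw [hV]
        exact div_mem (mul_mem mv (add_mem mp mq)) (mul_mem (mul_mem (pow_mem (add_mem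
          (add_mem mp mq) mr) 3) mq) (pow_mem mp 2))
  rw [hfield]
  refine enr_core hXY (κ := a + b + e - μ) rfl h1 h2 h3 hV0 ?_
  rw [hV, div_pow, mul_pow, hv, hX, hY]
  unfold cub sev
  simp only [map_sub, map_add, map_mul, map_ofNat]
  field_simp
  ring

end Pool.Agent.J4H64.LC
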