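import Pool.Agent.J4H13.LC.Jobs2

/-!
# Project LC, second stage: the exclusions for the Enriques configuration
-/

set_option autoImplicit false

open MvPolynomial FF

namespace Pool.Agent.J4H64.LC

open Pool.Agent.J4H13.BC Pool.Agent.J4H13.LA Pool.Agent.J4H13.BD Pool.Agent.J4H13.LC
  Pool.Agent.W602.GT Pool.Agent.W603.LV

theorem t_ENRC : S_ENRC := by
  intro m hm a b e μ hN
  have hsum : ∀ i j : Fin 3, i ≠ j → m i + m j ≠ 0 := by
    intro i j hij h
    have h1 : m i = (-1 : ℂ) • m j := by
      rw [neg_one_smul]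
      exact eq_neg_of_add_eq_zero_left h
    have h2 : LinearIndependent ℂ ![m i, m j] := by
      have := hm.comp ![i, j] (by
        intro s t hst
        fin_cases s <;> fin_cases t
        · rfl
        · exact absurd hst hij
        · exact absurd hst.symm hij
        · rfl)
      convert this using 1
      funext k
      fin_cases k <;> rfl
    have h3 := LinearIndependent.pair_iff.1 h2 1 1 (by rw [one_smul, one_smul]; exact h)
    exact one_ne_zero h3.1
  have key : ∀ i j : Fin 3, i ≠ j → ∀ R : P3,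
      cub a b e μ (lin (m 0)) (lin (m 1)) (lin (m 2)) = (lin (m i) + lin (m j)) * R → False := by
    intro i j hij R h
    refine hN.1 (m i + m j) (hsum i j hij) ⟨R, ?_⟩
    rw [h, lin_add]
  refine ⟨?_, ?_, ?_⟩
  · rintro ⟨rfl, rfl⟩
    refine key 1 2 (by decide) (algebraMap ℂ P3 a * (lin (m 1) * lin (m 2)) + algebraMap ℂ P3 b *
      (lin (m 0) * (lin (m 0) + lin (m 1) + lin (m 2)))) ?_
    unfold cub
    rw [map_mul, map_ofNat]
    ring
  · rintro ⟨rfl, rfl⟩
    refine key 0 2 (by decide) (algebraMap ℂ P3 e * (lin (m 1) * (lin (m 0) + lin (m 1) +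
      lin (m 2))) + algebraMap ℂ P3 b * (lin (m 0) * lin (m 2))) ?_
    unfold cub
    rw [map_mul, map_ofNat]
    ring
  · rintro ⟨rfl, rfl⟩
    refine key 0 1 (by decide) (algebraMap ℂ P3 b * (lin (m 2) * (lin (m 0) + lin (m 1) +
      lin (m 2))) + algebraMap ℂ P3 e * (lin (m 0) * lin (m 1))) ?_
    unfold cub
    rw [map_mul, map_ofNat]
    ring

end Pool.Agent.J4H64.LC
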