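import Pool.Agent.J4H64.LC.Quad
import Pool.Agent.J4H13.LC.Jobs2
import Mathlib.RingTheory.MvPolynomial.IrreducibleQuadratic

/-!
# Project LC, second stage: all lines pass through a point of the cubic
-/

set_option autoImplicit false

open MvPolynomial FF

namespace Pool.Agent.J4H64.LC

open Pool.Agent.J4H13.BC Pool.Agent.J4H13.LA Pool.Agent.J4H13.BD Pool.Agent.J4H13.LC
  Pool.Agent.W602.GT Pool.Agent.W603.LV

lemma cubic_split {m : Fin 3 → V3} (hm : LinearIndependent ℂ m) {Q : P3}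
    (hQ : Q.IsHomogeneous 3) : ∃ R : Fin 3 → P3, (∀ j, (R j).IsHomogeneous 2) ∧
      Q = ∑ j, lin (m j) * R j := by
  choose c hc using exists_coeffs hm
  have hlin : ∀ w : V3, lin w = ∑ j, C (c w j) * lin (m j) := by
    intro w
    conv_lhs => rw [hc w]
    rw [lin_add, lin_add, lin_smul, lin_smul, lin_smul, Fin.sum_univ_three]
  refine ⟨fun j => ∑ i, C (3⁻¹ * c (Pi.single i 1) j) * pderiv i Q, ?_, ?_⟩
  · intro j
    apply IsHomogeneous.sum
    intro i _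
    have := (isHomogeneous_C (Fin 3) (3⁻¹ * c (Pi.single i 1) j)).mul (hQ.pderiv (i := i))
    simpa using this
  · have h1 := hQ.sum_X_mul_pderiv
    have h2 : Q = C (3⁻¹ : ℂ) * (3 • Q) := by
      rw [nsmul_eq_mul, ← mul_assoc]
      have : (C (3⁻¹ : ℂ) : P3) * ((3 : ℕ) : P3) = 1 := by
        rw [← C_eq_coe_nat, ← C_mul]
        norm_num
      rw [this, one_mul]
    conv_lhs => rw [h2, ← h1]
    have h3 : ∀ i : Fin 3, X i * pderiv i Q =
        ∑ j, C (c (Pi.single i 1) j) * lin (m j) * pderiv i Q := by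
      intro i
      rw [← Finset.sum_mul, ← hlin, lin_single]
    rw [Finset.sum_congr rfl fun i _ => h3 i, Finset.sum_comm, Finset.mul_sum]
    refine Finset.sum_congr rfl fun j _ => ?_
    rw [Finset.mul_sum, Finset.mul_sum]
    refine Finset.sum_congr rfl fun i _ => ?_
    rw [C_mul]
    ring

/-- a cubic form in a basis of linear forms -/
lemma cubic_ten {m : Fin 3 → V3} (hm : LinearIndependent ℂ m) {Q : P3}
    (hQ : Q.IsHomogeneous 3) : ∃ κ l₀ l₁ α₀ α₁ α₂ β₀ β₁ β₂ β₃ : ℂ,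
    Q = C κ * lin (m 2) ^ 3 + (C l₀ * lin (m 0) + C l₁ * lin (m 1)) * lin (m 2) ^ 2 +
      (C α₀ * lin (m 0) ^ 2 + C α₁ * (lin (m 0) * lin (m 1)) + C α₂ * lin (m 1) ^ 2) *
        lin (m 2) +
      (C β₀ * lin (m 0) ^ 3 + C β₁ * (lin (m 0) ^ 2 * lin (m 1)) +
        C β₂ * (lin (m 0) * lin (m 1) ^ 2) + C β₃ * lin (m 1) ^ 3) := by
  obtain ⟨R, hR, hQR⟩ := cubic_split hm hQ
  choose q₀₀ q₁₁ q₂₂ q₀₁ q₀₂ q₁₂ hq using fun j => quad_six hm (hR j)
  refine ⟨q₂₂ 2, q₂₂ 0 + q₀₂ 2, q₂₂ 1 + q₁₂ 2, q₀₀ 2 + q₀₂ 0, q₀₁ 2 + q₁₂ 0 + q₀₂ 1,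
    q₁₁ 2 + q₁₂ 1, q₀₀ 0, q₀₁ 0 + q₀₀ 1, q₁₁ 0 + q₀₁ 1, q₁₁ 1, ?_⟩
  rw [hQR, Fin.sum_univ_three, hq 0, hq 1, hq 2]
  simp only [C_add]
  ring

lemma prime_lin {w : V3} (hw : w ≠ 0) : Prime (lin w) := by
  have h1 : (lin w).totalDegree = 1 := (lin_homog w).totalDegree (lin_ne_zero hw)
  have h2 : Irreducible (lin w) := by
    apply irreducible_of_totalDegree_eq_one h1
    intro x hx
    obtain ⟨i, hi⟩ : ∃ i, w i ≠ 0 := by
      by_contra hcon
      push Not at hcon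
      exact hw (funext hcon)
    have h3 := hx (Finsupp.single i 1)
    rw [coeff_lin] at h3
    exact isUnit_of_dvd_unit h3 (isUnit_iff_ne_zero.2 hi)
  exact h2.prime

/-- a binary cubic form is divisible by a linear form -/
lemma lin_dvd_cubic {m : Fin 3 → V3} (hm : LinearIndependent ℂ m) (β₀ β₁ β₂ β₃ : ℂ) :
    ∃ w : V3, w ≠ 0 ∧ lin w ∣ C β₀ * lin (m 0) ^ 3 + C β₁ * (lin (m 0) ^ 2 * lin (m 1)) +
        C β₂ * (lin (m 0) * lin (m 1) ^ 2) + C β₃ * lin (m 1) ^ 3 := by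
  by_cases h : β₀ = 0
  · refine ⟨m 1, hm.ne_zero 1, C β₁ * lin (m 0) ^ 2 + C β₂ * (lin (m 0) * lin (m 1)) +
      C β₃ * lin (m 1) ^ 2, ?_⟩
    rw [h, C_0]
    ring
  · obtain ⟨ρ, hρ⟩ : ∃ ρ : ℂ, β₀ * ρ ^ 3 + β₁ * ρ ^ 2 + β₂ * ρ + β₃ = 0 := by
      have h1 : (Polynomial.C β₀ * Polynomial.X ^ 3 + Polynomial.C β₁ * Polynomial.X ^ 2 +
          Polynomial.C β₂ * Polynomial.X + Polynomial.C β₃).degree ≠ 0 := by
        rw [Polynomial.degree_cubic h]
        decide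
      obtain ⟨ρ, hρ⟩ := IsAlgClosed.exists_root _ h1
      refine ⟨ρ, ?_⟩
      simpa [Polynomial.IsRoot] using hρ
    refine ⟨m 0 + (-ρ) • m 1, ?_, C β₀ * lin (m 0) ^ 2 + C (β₁ + β₀ * ρ) * (lin (m 0) * lin (m 1)) +
      C (β₂ + β₁ * ρ + β₀ * ρ ^ 2) * lin (m 1) ^ 2, ?_⟩
    · intro h0
      have h4 := Fintype.linearIndependent_iff.1 hm ![1, -ρ, 0] (by
        rw [Fin.sum_univ_three]
        simpa using h0) 0
      exact one_ne_zero h4
    · rw [lin_add, lin_smul]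
      have h5 : (C β₃ : P3) = -(C β₀ * C ρ ^ 3 + C β₁ * C ρ ^ 2 + C β₂ * C ρ) := by
        have : β₃ = -(β₀ * ρ ^ 3 + β₁ * ρ ^ 2 + β₂ * ρ) := by linear_combination hρ
        rw [this]
        simp only [C_neg, C_add, C_mul, C_pow]
      rw [h5]
      simp only [C_neg, C_add, C_mul, C_pow]
      ring

variable {K : Type} [Field K] [Algebra ℂ K]

theorem good_cubic (htsen : S_TSEN) {x y : K} (hxy : AlgebraicIndependent ℂ ![x, y])
    {m : Fin 3 → V3} (hm : LinearIndependent ℂ m) {Q : P3} (hQ : Q.IsHomogeneous 3)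
    (hN : ∀ w : V3, w ≠ 0 → ¬ lin w ∣ Q) {W : Submodule ℂ V3}
    (hW : W = Submodule.span ℂ {m 0, m 1}) (hQW : Q ∈ IW W) {k : ℕ} {l : Fin (2 * k + 1) → V3}
    (hl0 : ∀ i, l i ≠ 0) (hl : ∀ i, l i ∈ W) {v : K} (hv0 : v ≠ 0)
    (hv : v ^ 2 = aeval (gp x y) Q * ∏ i, ev (gp x y) (l i)) : Good x y v := by
  classical
  have : CharZero K := charZero_of_C K
  obtain ⟨κ, l₀, l₁, α₀, α₁, α₂, β₀, β₁, β₂, β₃, hq⟩ := cubic_ten hm hQ
  have hκ : κ = 0 := by
    obtain ⟨p, hp⟩ := exists_dual hm ![0, 0, 1]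
    have h1 : eval p Q = 0 := by
      have h2 : IW W ≤ RingHom.ker (eval p) := by
        unfold IW
        rw [Ideal.span_le]
        rintro _ ⟨w, hw, rfl⟩
        rw [hW] at hw
        obtain ⟨b, c, rfl⟩ := Submodule.mem_span_pair.1 hw
        change eval p (lin (b • m 0 + c • m 1)) = 0
        rw [lin_add, lin_smul, lin_smul, map_add, map_mul, map_mul, hp, hp]
        simp
      exact h2 hQW
    rw [hq] at h1
    simp only [map_add, map_mul, map_pow, eval_C, hp] at h1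
    simpa using h1
  obtain ⟨A, hA⟩ : ∃ A, A = lin (m 0) := ⟨_, rfl⟩
  obtain ⟨B, hB⟩ : ∃ B, B = lin (m 1) := ⟨_, rfl⟩
  obtain ⟨D, hD⟩ : ∃ D, D = lin (m 2) := ⟨_, rfl⟩
  obtain ⟨PL, hPL⟩ : ∃ P, P = lin (l₀ • m 0 + l₁ • m 1) := ⟨_, rfl⟩
  have hPL' : PL = C l₀ * A + C l₁ * B := by
    rw [hPL, lin_add, lin_smul, lin_smul, hA, hB]
  obtain ⟨P2, hP2⟩ : ∃ P, P = C α₀ * A ^ 2 + C α₁ * (A * B) + C α₂ * B ^ 2 := ⟨_, rfl⟩
  obtain ⟨P3', hP3⟩ : ∃ P, P = C β₀ * A ^ 3 + C β₁ * (A ^ 2 * B) + C β₂ * (A * B ^ 2) +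
    C β₃ * B ^ 3 := ⟨_, rfl⟩
  have hq' : Q = PL * D ^ 2 + P2 * D + P3' := by
    rw [hq, hκ, C_0, zero_mul, zero_add, hPL', hP2, hP3, hA, hB, hD]
  have hAh : A.IsHomogeneous 1 := hA ▸ lin_homog _
  have hBh : B.IsHomogeneous 1 := hB ▸ lin_homog _
  have hPLh : PL.IsHomogeneous 1 := hPL ▸ lin_homog _
  have hCh : ∀ (c : ℂ) (P : P3) (n : ℕ), P.IsHomogeneous n → (C c * P).IsHomogeneous n := by
    intro c P n hP
    have := (isHomogeneous_C (Fin 3) c).mul hP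
    rwa [zero_add] at this
  have hP2h : P2.IsHomogeneous 2 := by
    rw [hP2]
    exact ((hCh _ _ _ (hAh.pow 2)).add (hCh _ _ _ (hAh.mul hBh))).add (hCh _ _ _ (hBh.pow 2))
  have hP3h : P3'.IsHomogeneous 3 := by
    rw [hP3]
    exact (((hCh _ _ _ (hAh.pow 3)).add (hCh _ _ _ ((hAh.pow 2).mul hBh))).add
      (hCh _ _ _ (hAh.mul (hBh.pow 2)))).add (hCh _ _ _ (hBh.pow 3))
  -- the two conditions
  have hcond1 : PL = 0 → P2 ≠ 0 := by
    intro h1 h2
    obtain ⟨w, hw, hdvd⟩ := lin_dvd_cubic hm β₀ β₁ β₂ β₃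
    apply hN w hw
    rw [hq', h1, h2, zero_mul, zero_mul, zero_add, zero_add, hP3, hA, hB]
    exact hdvd
  have hcond2 : PL ≠ 0 → P2 ^ 2 - 4 * (PL * P3') ≠ 0 := by
    intro h1 h2
    have hw : l₀ • m 0 + l₁ • m 1 ≠ 0 := by
      intro h3
      apply h1
      rw [hPL, h3]
      unfold lin
      simp
    have hprime : Prime PL := hPL ▸ prime_lin hw
    have h3 : PL ∣ P2 ^ 2 := ⟨4 * P3', by linear_combination h2⟩
    obtain ⟨N, hNN⟩ := hprime.dvd_of_dvd_pow h3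
    apply hN _ hw
    rw [← hPL]
    have h4 : 4 * Q = PL * (2 * D + N) ^ 2 := by
      apply mul_left_cancel₀ h1
      linear_combination (4 * PL) * hq' + (4 * PL * D + P2 + PL * N) * hNN - h2
    refine ⟨C (4⁻¹) * (2 * D + N) ^ 2, ?_⟩
    have h5 : (C (4⁻¹ : ℂ) : P3) * 4 = 1 := by
      rw [show (4 : P3) = C 4 from (map_ofNat C 4).symm, ← C_mul]
      norm_num
    linear_combination (-Q) * h5 + C (4⁻¹) * h4
  -- in `K`
  obtain ⟨a, ha⟩ : ∃ a : ℂ → K, a = algebraMap ℂ K := ⟨_, rfl⟩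
  obtain ⟨M₀, hM₀⟩ : ∃ M₀, M₀ = ev (gp x y) (m 0) := ⟨_, rfl⟩
  have n0 : M₀ ≠ 0 := hM₀ ▸ M_ne hxy hm 0
  obtain ⟨s, hs⟩ : ∃ s, s = ev (gp x y) (m 1) / ev (gp x y) (m 0) := ⟨_, rfl⟩
  obtain ⟨u, hu⟩ : ∃ u, u = ev (gp x y) (m 2) / ev (gp x y) (m 0) := ⟨_, rfl⟩
  have hM1 : ev (gp x y) (m 1) = M₀ * s := by
    rw [hs, ← hM₀]
    field_simp
  have hM2 : ev (gp x y) (m 2) = M₀ * u := by
    rw [hu, ← hM₀]
    field_simp
  have hAk : aeval (gp x y) A = M₀ := by rw [hA, aeval_lin, hM₀]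
  have hBk : aeval (gp x y) B = M₀ * s := by rw [hB, aeval_lin, hM1]
  have hDk : aeval (gp x y) D = M₀ * u := by rw [hD, aeval_lin, hM2]
  obtain ⟨L₁, hL₁⟩ : ∃ L₁, L₁ = algebraMap ℂ K l₀ + algebraMap ℂ K l₁ * s := ⟨_, rfl⟩
  obtain ⟨Q₂, hQ₂⟩ : ∃ Q₂, Q₂ = algebraMap ℂ K α₀ + algebraMap ℂ K α₁ * s +
    algebraMap ℂ K α₂ * s ^ 2 := ⟨_, rfl⟩
  obtain ⟨Q₃, hQ₃⟩ : ∃ Q₃, Q₃ = algebraMap ℂ K β₀ + algebraMap ℂ K β₁ * s +
    algebraMap ℂ K β₂ * s ^ 2 + algebraMap ℂ K β₃ * s ^ 3 := ⟨_, rfl⟩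
  have hLk : aeval (gp x y) PL = M₀ * L₁ := by
    rw [hPL', hL₁]
    simp only [map_add, map_mul, hAk, hBk, algHom_C]
    ring
  have h2k : aeval (gp x y) P2 = M₀ ^ 2 * Q₂ := by
    rw [hP2, hQ₂]
    simp only [map_add, map_mul, map_pow, hAk, hBk, algHom_C]
    ring
  have h3k : aeval (gp x y) P3' = M₀ ^ 3 * Q₃ := by
    rw [hP3, hQ₃]
    simp only [map_add, map_mul, map_pow, hAk, hBk, algHom_C]
    ring
  have hQk : aeval (gp x y) Q = M₀ ^ 3 * (L₁ * u ^ 2 + Q₂ * u + Q₃) := by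
    rw [hq']
    simp only [map_add, map_mul, map_pow, hLk, h2k, h3k, hDk]
    ring
  have hk1 : L₁ = 0 → Q₂ ≠ 0 := by
    intro h1 h2
    have h3 : PL = 0 := by
      by_contra h3
      apply aeval_gp_ne_zero hxy hPLh h3
      rw [hLk, h1, mul_zero]
    apply aeval_gp_ne_zero hxy hP2h (hcond1 h3)
    rw [h2k, h2, mul_zero]
  have hk2 : L₁ ≠ 0 → Q₂ ^ 2 - 4 * (L₁ * Q₃) ≠ 0 := by
    intro h1 h2
    have h3 : PL ≠ 0 := by
      rintro h3
      rw [h3, map_zero] at hLk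
      rcases mul_eq_zero.1 hLk.symm with h | h
      · exact n0 h
      · exact h1 h
    have h4 : (P2 ^ 2 - 4 * (PL * P3')).IsHomogeneous 4 := by
      have h5 : (4 * (PL * P3') : P3).IsHomogeneous 4 := by
        rw [show (4 : P3) = C 4 from (map_ofNat C 4).symm]
        exact hCh _ _ _ (hPLh.mul hP3h)
      exact (hP2h.pow 2).sub h5
    apply aeval_gp_ne_zero hxy h4 (hcond2 h3)
    rw [map_sub, map_pow, map_mul, map_mul, h2k, hLk, h3k, map_ofNat]
    linear_combination M₀ ^ 4 * h2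
  -- the ratio of the lines
  obtain ⟨R, hR⟩ : ∃ R, R = IntermediateField.adjoin ℂ ({s} : Set K) := ⟨_, rfl⟩
  have hsR : s ∈ R := by
    rw [hR]
    exact IntermediateField.subset_adjoin _ _ rfl
  have hcR : ∀ c : ℂ, algebraMap ℂ K c ∈ R := fun c => R.algebraMap_mem c
  have hL₁R : L₁ ∈ R := by
    rw [hL₁]
    exact add_mem (hcR _) (mul_mem (hcR _) hsR)
  have hQ₂R : Q₂ ∈ R := by
    rw [hQ₂]
    exact add_mem (add_mem (hcR _) (mul_mem (hcR _) hsR)) (mul_mem (hcR _) (pow_mem hsR 2))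
  have hQ₃R : Q₃ ∈ R := by
    rw [hQ₃]
    exact add_mem (add_mem (add_mem (hcR _) (mul_mem (hcR _) hsR))
      (mul_mem (hcR _) (pow_mem hsR 2))) (mul_mem (hcR _) (pow_mem hsR 3))
  have h2R : ∀ M : IntermediateField ℂ K, (2 : K) ∈ M := fun M => by
    have := M.algebraMap_mem 2
    rwa [map_ofNat] at this
  obtain ⟨f, hfR, hf0, hprod⟩ := prod_mem hxy hm (L := R) (by rw [← hs]; exact hsR) hl0
    Finset.univ fun i _ => by rw [← hW]; exact hl i
  rw [Finset.card_univ, Fintype.card_fin, ← hM₀] at hprod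
  obtain ⟨v', hv'⟩ : ∃ v', v' = v / M₀ ^ (k + 2) := ⟨_, rfl⟩
  have hv'2 : v' ^ 2 = f * (L₁ * u ^ 2 + Q₂ * u + Q₃) := by
    rw [hv', div_pow, hv, hQk, hprod]
    field_simp
    ring
  have hxyM : ∀ M : IntermediateField ℂ K, s ∈ M → u ∈ M → M₀ ∈ M ∧ x ∈ M ∧ y ∈ M := by
    intro M h1 h2
    have := lin_mem hxy hm (L := M) (by rw [← hs]; exact h1) (by rw [← hu]; exact h2)
    rwa [← hM₀] at this
  have huR : u ∉ R := by
    intro h
    obtain ⟨-, h1, h2⟩ := hxyM R hsR h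
    have h3 : R = IntermediateField.adjoin ℂ ({s, s} : Set K) := by
      rw [hR, Set.pair_eq_singleton]
    rw [h3] at h1 h2
    have h4 := (algInd_of_mem hxy h1 h2).injective
    have h5 : (0 : Fin 2) = 1 := h4 rfl
    exact absurd h5 (by decide)
  have hstr : Transcendental ℂ s := by
    have h1 : AlgebraicIndependent ℂ ![s, u] := by
      obtain ⟨-, h1, h2⟩ := hxyM (IntermediateField.adjoin ℂ ({s, u} : Set K))
        (IntermediateField.subset_adjoin _ _ (by simp))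
        (IntermediateField.subset_adjoin _ _ (by simp))
      exact algInd_of_mem hxy h1 h2
    exact h1.transcendental 0
  -- the parameter
  obtain ⟨T, huT, hvT⟩ : ∃ T : K, u ∈ IntermediateField.adjoin ℂ ({s, T} : Set K) ∧
      v' ∈ IntermediateField.adjoin ℂ ({s, T} : Set K) := by
    have hRT : ∀ (T : K) (z : K), z ∈ R → z ∈ IntermediateField.adjoin ℂ ({s, T} : Set K) := by
      intro T z hz
      rw [hR] at hz
      exact IntermediateField.adjoin.mono ℂ _ _ (by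
        rintro w rfl
        exact Or.inl rfl) hz
    have hTT : ∀ T : K, T ∈ IntermediateField.adjoin ℂ ({s, T} : Set K) := fun T =>
      IntermediateField.subset_adjoin _ _ (by simp)
    by_cases hL0 : L₁ = 0
    · refine ⟨v', ?_, hTT v'⟩
      have hQ0 := hk1 hL0
      have h1 : u = (v' ^ 2 / f - Q₃) / Q₂ := by
        rw [eq_div_iff hQ0, eq_sub_iff_add_eq, eq_div_iff hf0, hv'2, hL0]
        ring
      rw [h1]
      exact div_mem (sub_mem (div_mem (pow_mem (hTT v') 2) (hRT _ _ hfR)) (hRT _ _ hQ₃R))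
        (hRT _ _ hQ₂R)
    · have hdisc := hk2 hL0
      rw [hR] at hfR hL₁R hQ₂R hQ₃R
      obtain ⟨p, hp, q, hq₁, c, hc, hne, hrel⟩ := htsen K s hstr (f * L₁) (mul_mem hfR hL₁R)
        (f * Q₂) (mul_mem hfR hQ₂R) (f * Q₃) (mul_mem hfR hQ₃R)
      rw [← hR] at hp hq₁ hc hfR hL₁R hQ₂R hQ₃R
      by_cases hc0 : c = 0
      · have hq0 : q ≠ 0 := by
          rintro rfl
          rw [hc0] at hrel hne
          have : p = 0 := by
            have h1 : p ^ 2 = 0 := by rw [hrel]; ring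
            exact pow_eq_zero_iff two_ne_zero |>.1 h1
          simp [this] at hne
        obtain ⟨ρ, hρ⟩ : ∃ ρ, ρ = p / q := ⟨_, rfl⟩
        have hρR : ρ ∈ R := hρ ▸ div_mem hp hq₁
        have hρ2 : ρ ^ 2 = f * L₁ := by
          rw [hρ, div_pow, hrel, hc0]
          field_simp
          ring
        obtain ⟨T, hT⟩ : ∃ T, T = v' - ρ * u := ⟨_, rfl⟩
        have h1 : u * (2 * ρ * T - f * Q₂) = f * Q₃ - T ^ 2 := by
          rw [hT]
          linear_combination hv'2 - u ^ 2 * hρ2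
        have h2 : 2 * ρ * T - f * Q₂ ≠ 0 := by
          intro h2
          rw [h2, mul_zero] at h1
          apply hdisc
          have h3 : f ^ 2 * (Q₂ ^ 2 - 4 * (L₁ * Q₃)) = 0 := by
            linear_combination (-(2 * ρ * T + f * Q₂)) * h2 + (4 * f * L₁) * h1 +
              (4 * T ^ 2) * hρ2
          exact (mul_eq_zero.1 h3).resolve_left (pow_ne_zero 2 hf0)
        have h3 : u ∈ IntermediateField.adjoin ℂ ({s, T} : Set K) := by
          have h4 : u = (f * Q₃ - T ^ 2) / (2 * ρ * T - f * Q₂) := by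
            rw [eq_div_iff h2]
            exact h1
          rw [h4]
          exact div_mem (sub_mem (mul_mem (hRT _ _ hfR) (hRT _ _ hQ₃R)) (pow_mem (hTT T) 2))
            (sub_mem (mul_mem (mul_mem (h2R _) (hRT _ _ hρR)) (hTT T))
              (mul_mem (hRT _ _ hfR) (hRT _ _ hQ₂R)))
        refine ⟨T, h3, ?_⟩
        have h5 : v' = T + ρ * u := by
          rw [hT]
          ring
        rw [h5]
        exact add_mem (hTT T) (mul_mem (hRT _ _ hρR) h3)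
      · obtain ⟨u₀, hu₀⟩ : ∃ u₀, u₀ = q / c := ⟨_, rfl⟩
        obtain ⟨v₀, hv₀⟩ : ∃ v₀, v₀ = p / c := ⟨_, rfl⟩
        have hu₀R : u₀ ∈ R := hu₀ ▸ div_mem hq₁ hc
        have hv₀R : v₀ ∈ R := hv₀ ▸ div_mem hp hc
        have hrel' : v₀ ^ 2 = f * (L₁ * u₀ ^ 2 + Q₂ * u₀ + Q₃) := by
          rw [hv₀, hu₀, div_pow, hrel]
          field_simp
        have huu : u - u₀ ≠ 0 := by
          intro h
          apply huR
          rw [sub_eq_zero.1 h]
          exact hu₀R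
        obtain ⟨T, hT⟩ : ∃ T, T = (v' - v₀) / (u - u₀) := ⟨_, rfl⟩
        have hvT : v' = v₀ + T * (u - u₀) := by
          rw [hT]
          field_simp
          ring
        have h1 : (u - u₀) * (T ^ 2 - f * L₁) = f * (2 * L₁ * u₀ + Q₂) - 2 * v₀ * T := by
          apply mul_left_cancel₀ huu
          have h2 := hv'2
          rw [hvT] at h2
          linear_combination h2 - hrel'
        have h2 : T ^ 2 - f * L₁ ≠ 0 := by
          intro h2
          rw [h2, mul_zero] at h1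
          apply hdisc
          have h3 : f ^ 2 * (Q₂ ^ 2 - 4 * (L₁ * Q₃)) = 0 := by
            linear_combination (-(f * (2 * L₁ * u₀ + Q₂) + 2 * v₀ * T)) * h1 +
              (4 * v₀ ^ 2) * h2 + (4 * f * L₁) * hrel'
          exact (mul_eq_zero.1 h3).resolve_left (pow_ne_zero 2 hf0)
        have h3 : u ∈ IntermediateField.adjoin ℂ ({s, T} : Set K) := by
          have h4 : u = u₀ + (f * (2 * L₁ * u₀ + Q₂) - 2 * v₀ * T) / (T ^ 2 - f * L₁) := by
            rw [← h1]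
            field_simp
            ring
          rw [h4]
          exact add_mem (hRT _ _ hu₀R) (div_mem (sub_mem (mul_mem (hRT _ _ hfR)
            (add_mem (mul_mem (mul_mem (h2R _) (hRT _ _ hL₁R)) (hRT _ _ hu₀R)) (hRT _ _ hQ₂R)))
            (mul_mem (mul_mem (h2R _) (hRT _ _ hv₀R)) (hTT T)))
            (sub_mem (pow_mem (hTT T) 2) (mul_mem (hRT _ _ hfR) (hRT _ _ hL₁R))))
        refine ⟨T, h3, ?_⟩
        have h4 := add_mem (hRT T _ hv₀R) (mul_mem (hTT T) (sub_mem h3 (hRT T _ hu₀R)))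
        rwa [← hvT] at h4
  have hsT : s ∈ IntermediateField.adjoin ℂ ({s, T} : Set K) :=
    IntermediateField.subset_adjoin _ _ (by simp)
  obtain ⟨h0, hx, hy⟩ := hxyM _ hsT huT
  refine ⟨_, hx, hy, ?_, 2, embed_of_two hxy hx hy⟩
  have h2 : v = v' * M₀ ^ (k + 2) := by
    rw [hv']
    field_simp
  rw [h2]
  exact mul_mem hvT (pow_mem h0 _)

theorem t_RAT3 : S_RAT3 := by
  classical
  intro htsen K _ _ x y hxy Q hQ hN k l hl0 W hW hQW hl v hv0 hv
  obtain ⟨m₀, m₁, h01, hspan⟩ : ∃ m₀ m₁ : V3, LinearIndependent ℂ ![m₀, m₁] ∧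
      W = Submodule.span ℂ {m₀, m₁} := by
    let b := Module.finBasisOfFinrankEq ℂ W hW
    refine ⟨b 0, b 1, ?_, ?_⟩
    · have h1 := b.linearIndependent.map' W.subtype (Submodule.ker_subtype W)
      have h2 : ![((b 0 : W) : V3), ((b 1 : W) : V3)] = W.subtype ∘ b := by
        funext i
        fin_cases i <;> rfl
      rw [h2]
      exact h1
    · apply le_antisymm
      · intro w hw
        have h2 := b.sum_repr ⟨w, hw⟩
        rw [Fin.sum_univ_two] at h2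
        have h3 := congrArg Subtype.val h2
        rw [Submodule.mem_span_pair]
        exact ⟨_, _, h3⟩
      · rw [Submodule.span_le]
        rintro w (rfl | rfl)
        · exact (b 0).2
        · exact (b 1).2
  obtain ⟨m₂, hm⟩ := exists_linearIndependent_cons_of_lt_finrank (R := ℂ) (M := V3) h01 (by simp)
  have hm' : LinearIndependent ℂ ![m₂, m₀, m₁] := hm
  have hm3 : LinearIndependent ℂ ![m₀, m₁, m₂] := by
    have h2 := hm'.comp ![1, 2, 0] (by decide)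
    convert h2 using 1
    ext i
    fin_cases i <;> rfl
  exact good_cubic htsen hxy hm3 hQ hN.1 hspan hQW hl0 hl hv0 hv

end Pool.Agent.J4H64.LC
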