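import Pool.Agent.J4H13.LC.Jobs2

/-!
# Project LC, second stage: the Enriques field, general lemmas
-/

set_option autoImplicit false

open MvPolynomial FF

namespace Pool.Agent.J4H64.LC

open Pool.Agent.J4H13.BC Pool.Agent.J4H13.LA Pool.Agent.J4H13.BD Pool.Agent.J4H13.LC
  Pool.Agent.W602.GT Pool.Agent.W603.LV

variable {K : Type} [Field K] [Algebra ℂ K]

lemma emb_mono {L L' : IntermediateField ℂ K} (h : L ≤ L') (hL : Emb L') : Emb L := by
  obtain ⟨m, ⟨f⟩⟩ := hL
  exact ⟨m, ⟨f.comp (IntermediateField.inclusion h)⟩⟩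

lemma eval_of_ind {X Y : K} (h : AlgebraicIndependent ℂ ![X, Y]) {P : MvPolynomial (Fin 2) ℂ}
    (hP : aeval ![X, Y] P = 0) (s t : ℂ) : eval ![s, t] P = 0 := by
  rw [(algebraicIndependent_iff.1 h) P hP, map_zero]

lemma emb_of_image {L : IntermediateField ℂ K} {Ω : Type} [Field Ω] [Algebra ℂ Ω] (ι : K →ₐ[ℂ] Ω)
    {t s : Ω} (h : L ≤ (IntermediateField.adjoin ℂ {t, s}).comap ι) {X θ : K}
    (hind : AlgebraicIndependent ℂ ![X, θ]) (hX : X ∈ L) (hθ : θ ∈ L) : Emb L := by
  have h1 : L.map ι ≤ IntermediateField.adjoin ℂ {t, s} :=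
    IntermediateField.map_le_iff_le_comap.2 h
  have h2 : AlgebraicIndependent ℂ ![ι X, ι θ] := by
    have h3 := hind.map' (f := ι) ι.injective
    convert h3 using 1
    funext i
    fin_cases i <;> rfl
  obtain ⟨f⟩ := embed_of_two h2 (h hX) (h hθ)
  exact ⟨2, ⟨(f.comp (IntermediateField.inclusion h1)).comp (L.equivMap ι).toAlgHom⟩⟩

open scoped IntermediateField.algebraAdjoinAdjoin in
lemma algInd_of_trdeg {t s : K}
    (h : (2 : Cardinal) ≤ Algebra.trdeg ℂ (IntermediateField.adjoin ℂ ({t, s} : Set K))) :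
    AlgebraicIndependent ℂ ![t, s] := by
  classical
  obtain ⟨S, hS⟩ : ∃ S : Set K, S = Set.range ![t, s] := ⟨_, rfl⟩
  have hS' : S = {t, s} := by
    rw [hS, Matrix.range_cons, Matrix.range_cons, Matrix.range_empty, Set.union_empty]
    rfl
  rw [← hS'] at h
  let B := Algebra.adjoin ℂ S
  let L := IntermediateField.adjoin ℂ S
  have h1 : (2 : Cardinal) ≤ Algebra.trdeg ℂ L := h
  have h2 : Algebra.IsAlgebraic B L := inferInstance
  have h3 : FaithfulSMul B L := by
    rw [faithfulSMul_iff_algebraMap_injective]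
    intro a b hab
    apply Subtype.ext
    exact congrArg (fun z : L => (z : K)) hab
  have h8 : IsScalarTower ℂ B L := IsScalarTower.of_algebraMap_eq fun c => rfl
  have h3' : FaithfulSMul ℂ B := by
    rw [faithfulSMul_iff_algebraMap_injective]
    exact (algebraMap ℂ B).injective
  have h4 := trdeg_add_eq ℂ B (A := L)
  have h5 : Algebra.trdeg B L = 0 := trdeg_eq_zero_iff.2 h2
  rw [h5, add_zero] at h4
  let x' : Fin 2 → B := fun i => ⟨![t, s] i, Algebra.subset_adjoin (by rw [hS]; exact ⟨i, rfl⟩)⟩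
  have h6 : Algebra.adjoin ℂ (Set.range x') = ⊤ := by
    have h7 : (Algebra.adjoin ℂ (Set.range x')).map B.val = B := by
      rw [AlgHom.map_adjoin, ← Set.range_comp]
      change Algebra.adjoin ℂ (Set.range ![t, s]) = _
      rw [← hS]
    rw [eq_top_iff]
    rintro ⟨b, hb⟩ -
    have hb' := hb
    change b ∈ B at hb'
    rw [← h7] at hb'
    obtain ⟨c, hc, hcb⟩ := hb'
    have : c = ⟨b, hb⟩ := Subtype.ext hcb
    rw [← this]
    exact hc
  have h7 : Algebra.IsAlgebraic (Algebra.adjoin ℂ (Set.range x')) B := by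
    rw [h6]
    refine ⟨fun b => ?_⟩
    have : b = algebraMap (⊤ : Subalgebra ℂ B) B ⟨b, trivial⟩ := rfl
    rw [this]
    exact isAlgebraic_algebraMap _
  have h9 : IsTranscendenceBasis ℂ x' := by
    apply Algebra.IsAlgebraic.isTranscendenceBasis_of_le_trdeg_of_finite ℂ x'
    rw [h4]
    simpa using h1
  have h10 := h9.1.map' (f := B.val) Subtype.val_injective
  exact h10

lemma algInd_of_alg {t s x y : K} (hxy : AlgebraicIndependent ℂ ![x, y])
    (hx : IsAlgebraic (IntermediateField.adjoin ℂ ({t, s} : Set K)) x)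
    (hy : IsAlgebraic (IntermediateField.adjoin ℂ ({t, s} : Set K)) y) :
    AlgebraicIndependent ℂ ![t, s] := by
  apply algInd_of_trdeg
  let F := IntermediateField.adjoin ℂ ({t, s} : Set K)
  let L := algebraicClosure F K
  have hxL : x ∈ L := mem_algebraicClosure_iff.2 hx
  have hyL : y ∈ L := mem_algebraicClosure_iff.2 hy
  have h1 : (2 : Cardinal) ≤ Algebra.trdeg ℂ L := by
    have h2 : AlgebraicIndependent ℂ (fun i : Fin 2 => (⟨![x, y] i, by
        fin_cases i
        · exact hxL
        · exact hyL⟩ : L)) := by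
      apply AlgebraicIndependent.of_comp (L.val.restrictScalars ℂ)
      exact hxy
    have h3 := h2.cardinalMk_le_trdeg
    simpa using h3
  have h3 : FaithfulSMul F L := by
    rw [faithfulSMul_iff_algebraMap_injective]
    exact (algebraMap F L).injective
  have h3' : FaithfulSMul ℂ F := by
    rw [faithfulSMul_iff_algebraMap_injective]
    exact (algebraMap ℂ F).injective
  have h8 : IsScalarTower ℂ F L := IsScalarTower.of_algebraMap_eq fun c => rfl
  have h4 := trdeg_add_eq ℂ F (A := L)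
  have h6 : Algebra.IsAlgebraic F L := inferInstance
  have h5 : Algebra.trdeg F L = 0 := trdeg_eq_zero_iff.2 h6
  rw [h5, add_zero] at h4
  change (2 : Cardinal) ≤ Algebra.trdeg ℂ F
  rw [h4]
  exact h1

end Pool.Agent.J4H64.LC
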