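import Pool.Agent.J4H64.LC.Enr1

/-!
# Project LC, second stage: the Enriques field in the coordinates `X`, `Y`
-/

set_option autoImplicit false

open MvPolynomial FF

namespace Pool.Agent.J4H64.LC

open Pool.Agent.J4H13.BC Pool.Agent.J4H13.LA Pool.Agent.J4H13.BD Pool.Agent.J4H13.LC
  Pool.Agent.W602.GT Pool.Agent.W603.LV

variable {K : Type} [Field K] [Algebra ℂ K]

/-- The field `F₀ ⊔ adjoin {δ ν}`: here `ω = δ ν / X`. -/
lemma emb_three' {Ω : Type} [Field Ω] [Algebra ℂ Ω] [IsAlgClosed Ω] (ι : K →ₐ[ℂ] Ω) {X θ : K}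
    (hind : AlgebraicIndependent ℂ ![X, θ])
    (hX1 : 1 - X ≠ 0) (hθ0 : θ ≠ 0) {a b e μ κ : ℂ} (hκ : κ = a + b + e - μ)
    (h2 : ¬ (μ = 2 * a ∧ e = a)) (h3 : ¬ (μ = 2 * a ∧ b = a)) {ω : K}
    (hω : ω ^ 2 = -(θ * (1 - X)) * (algebraMap ℂ K (2 * e - μ) ^ 2 * X * θ ^ 2 +
      4 * (1 + θ * (algebraMap ℂ K κ * X - algebraMap ℂ K b)) *
        (1 - θ * (algebraMap ℂ K e - algebraMap ℂ K a * X)))) {L : IntermediateField ℂ K}
    (hL : L ≤ IntermediateField.adjoin ℂ ({X, θ, ω} : Set K)) (hXL : X ∈ L) (hθL : θ ∈ L) :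
    Emb L := by
  classical
  have : CharZero Ω := charZero_of_C Ω
  have hιinj : Function.Injective ι := ι.injective
  obtain ⟨U, hU⟩ : ∃ U, U = (ι (1 - X))⁻¹ := ⟨_, rfl⟩
  obtain ⟨θ', hθ'⟩ : ∃ θ', θ' = ι (θ * (1 - X)) := ⟨_, rfl⟩
  have hU0 : U ≠ 0 := by
    rw [hU]
    exact inv_ne_zero ((map_ne_zero_iff ι hιinj).2 hX1)
  have hX' : ι X = 1 - U⁻¹ := by
    rw [hU, inv_inv, map_sub, map_one]
    ring
  have hθι : ι θ = θ' * U := by
    rw [hθ', hU, map_mul]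
    rw [mul_assoc, mul_inv_cancel₀ ((map_ne_zero_iff ι hιinj).2 hX1), mul_one]
  have hθ'0 : θ' ≠ 0 := by
    rw [hθ']
    exact (map_ne_zero_iff ι hιinj).2 (mul_ne_zero hθ0 hX1)
  obtain ⟨τ, hτ⟩ := IsAlgClosed.exists_pow_nat_eq (-θ') (n := 2) two_pos
  have hτ0 : τ ≠ 0 := by
    rintro rfl
    apply hθ'0
    rw [zero_pow two_ne_zero] at hτ
    exact neg_eq_zero.1 hτ.symm
  have hιc : ∀ c : ℂ, ι (algebraMap ℂ K c) = algebraMap ℂ Ω c := fun c => ι.commutes c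
  obtain ⟨s₀, hs₀⟩ : ∃ s₀, s₀ = τ ^ 2 * algebraMap ℂ Ω (μ - 2 * a) := ⟨_, rfl⟩
  obtain ⟨a₁, ha₁⟩ : ∃ a₁ : Ω, a₁ = -(algebraMap ℂ Ω (2 * e - μ) ^ 2 * θ' ^ 2) +
      4 * θ' * algebraMap ℂ Ω (κ - b) * (1 - algebraMap ℂ Ω a * θ') -
      4 * θ' * algebraMap ℂ Ω (e - a) * (1 - algebraMap ℂ Ω κ * θ') := ⟨_, rfl⟩
  obtain ⟨a₀, ha₀⟩ : ∃ a₀ : Ω, a₀ = 4 * (1 - algebraMap ℂ Ω κ * θ') *
      (1 - algebraMap ℂ Ω a * θ') := ⟨_, rfl⟩
  obtain ⟨w, hw⟩ : ∃ w, w = ι ω / τ := ⟨_, rfl⟩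
  obtain ⟨T, hT⟩ : ∃ T, T = w - s₀ * U := ⟨_, rfl⟩
  have hθτ : θ' = -τ ^ 2 := by
    rw [hτ, neg_neg]
  have hw2 : w ^ 2 = s₀ ^ 2 * U ^ 2 + a₁ * U + a₀ := by
    have h4 : (ι ω) ^ 2 = -(ι θ * (1 - ι X)) * (algebraMap ℂ Ω (2 * e - μ) ^ 2 * ι X * ι θ ^ 2 +
      4 * (1 + ι θ * (algebraMap ℂ Ω κ * ι X - algebraMap ℂ Ω b)) *
        (1 - ι θ * (algebraMap ℂ Ω e - algebraMap ℂ Ω a * ι X))) := by
      rw [← map_pow, hω]
      simp only [map_mul, map_neg, map_sub, map_add, map_one, map_pow, hιc, map_ofNat]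
    rw [hw, div_pow, h4, hX', hθι, ha₁, ha₀, hs₀, hτ, hκ]
    rw [div_eq_iff (neg_ne_zero.2 hθ'0)]
    simp only [map_sub, map_add, map_mul, map_ofNat]
    field_simp
    ring
  have hUT : U * (2 * s₀ * T - a₁) = a₀ - T ^ 2 := by
    rw [hT]
    linear_combination hw2
  -- both cases
  have hfin : ∀ t : Ω, U ∈ IntermediateField.adjoin ℂ {τ, t} →
      w ∈ IntermediateField.adjoin ℂ {τ, t} → Emb L := by
    intro t hUt hwt
    have hτt : τ ∈ IntermediateField.adjoin ℂ {τ, t} :=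
      IntermediateField.subset_adjoin _ _ (by simp)
    refine emb_of_image ι (t := τ) (s := t) ?_ hind hXL hθL
    refine hL.trans ?_
    rw [IntermediateField.adjoin_le_iff]
    intro z hz
    change ι z ∈ IntermediateField.adjoin ℂ {τ, t}
    rcases hz with rfl | rfl | rfl
    · rw [hX']
      exact sub_mem (one_mem _) (inv_mem hUt)
    · rw [hθι, hθτ]
      exact mul_mem (neg_mem (pow_mem hτt 2)) hUt
    · have : ι z = w * τ := by
        rw [hw]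
        field_simp
      rw [this]
      exact mul_mem hwt hτt
  have hcm : ∀ (t : Ω) (c : ℂ), algebraMap ℂ Ω c ∈ IntermediateField.adjoin ℂ {τ, t} :=
    fun t c => IntermediateField.algebraMap_mem _ c
  have hτt : ∀ t : Ω, τ ∈ IntermediateField.adjoin ℂ {τ, t} := fun t =>
    IntermediateField.subset_adjoin _ _ (by simp)
  have htt : ∀ t : Ω, t ∈ IntermediateField.adjoin ℂ {τ, t} := fun t =>
    IntermediateField.subset_adjoin _ _ (by simp)
  have hθm : ∀ t : Ω, θ' ∈ IntermediateField.adjoin ℂ {τ, t} := by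
    intro t
    rw [hθτ]
    exact neg_mem (pow_mem (hτt t) 2)
  have h4m : ∀ t : Ω, (4 : Ω) ∈ IntermediateField.adjoin ℂ {τ, t} := fun t => by
    have := hcm t 4
    rwa [map_ofNat] at this
  have h2m : ∀ t : Ω, (2 : Ω) ∈ IntermediateField.adjoin ℂ {τ, t} := fun t => by
    have := hcm t 2
    rwa [map_ofNat] at this
  have hs₀m : ∀ t : Ω, s₀ ∈ IntermediateField.adjoin ℂ {τ, t} := by
    intro t
    rw [hs₀]
    exact mul_mem (pow_mem (hτt t) 2) (hcm t _)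
  have ha₁m : ∀ t : Ω, a₁ ∈ IntermediateField.adjoin ℂ {τ, t} := by
    intro t
    rw [ha₁]
    exact sub_mem (add_mem (neg_mem (mul_mem (pow_mem (hcm t _) 2) (pow_mem (hθm t) 2)))
      (mul_mem (mul_mem (mul_mem (h4m t) (hθm t)) (hcm t _))
        (sub_mem (one_mem _) (mul_mem (hcm t _) (hθm t)))))
      (mul_mem (mul_mem (mul_mem (h4m t) (hθm t)) (hcm t _))
        (sub_mem (one_mem _) (mul_mem (hcm t _) (hθm t))))
  have ha₀m : ∀ t : Ω, a₀ ∈ IntermediateField.adjoin ℂ {τ, t} := by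
    intro t
    rw [ha₀]
    exact mul_mem (mul_mem (h4m t) (sub_mem (one_mem _) (mul_mem (hcm t _) (hθm t))))
      (sub_mem (one_mem _) (mul_mem (hcm t _) (hθm t)))
  by_cases hc : 2 * s₀ * T - a₁ = 0
  · -- `T` is in `ℂ(τ)`
    have hs₀0 : s₀ ≠ 0 := by
      intro h0
      have hμ : μ = 2 * a := by
        rw [hs₀] at h0
        have := (mul_eq_zero.1 h0).resolve_left (pow_ne_zero 2 hτ0)
        rw [map_eq_zero] at this
        linear_combination this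
      have ha₁0 : a₁ = 0 := by
        rw [h0] at hc
        linear_combination (-1 : Ω) * hc
      have h5 : 4 * θ' ^ 2 * (algebraMap ℂ Ω (e - a) * algebraMap ℂ Ω (b - a)) = 0 := by
        rw [← ha₁0, ha₁, hκ, hμ]
        simp only [map_sub, map_add, map_mul, map_ofNat]
        ring
      have h6 : (4 : Ω) * θ' ^ 2 ≠ 0 := mul_ne_zero (by norm_num) (pow_ne_zero 2 hθ'0)
      rcases mul_eq_zero.1 ((mul_eq_zero.1 h5).resolve_left h6) with h7 | h7
      · rw [map_eq_zero] at h7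
        exact h2 ⟨hμ, by linear_combination h7⟩
      · rw [map_eq_zero] at h7
        exact h3 ⟨hμ, by linear_combination h7⟩
    refine hfin U (htt U) ?_
    have hTm : T ∈ IntermediateField.adjoin ℂ {τ, U} := by
      have : T = a₁ / (2 * s₀) := by
        rw [eq_div_iff (mul_ne_zero two_ne_zero hs₀0)]
        linear_combination hc
      rw [this]
      exact div_mem (ha₁m U) (mul_mem (h2m U) (hs₀m U))
    have : w = T + s₀ * U := by
      rw [hT]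
      ring
    rw [this]
    exact add_mem hTm (mul_mem (hs₀m U) (htt U))
  · have hUm : U ∈ IntermediateField.adjoin ℂ {τ, T} := by
      have : U = (a₀ - T ^ 2) / (2 * s₀ * T - a₁) := by
        rw [eq_div_iff hc]
        exact hUT
      rw [this]
      exact div_mem (sub_mem (ha₀m T) (pow_mem (htt T) 2))
        (sub_mem (mul_mem (mul_mem (h2m T) (hs₀m T)) (htt T)) (ha₁m T))
    refine hfin T hUm ?_
    have : w = T + s₀ * U := by
      rw [hT]
      ring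
    rw [this]
    exact add_mem (htt T) (mul_mem (hs₀m T) hUm)

lemma emb_three {X θ : K} (hind : AlgebraicIndependent ℂ ![X, θ])
    (hX1 : 1 - X ≠ 0) (hθ0 : θ ≠ 0) {a b e μ κ : ℂ} (hκ : κ = a + b + e - μ)
    (h2 : ¬ (μ = 2 * a ∧ e = a)) (h3 : ¬ (μ = 2 * a ∧ b = a)) {ω : K}
    (hω : ω ^ 2 = -(θ * (1 - X)) * (algebraMap ℂ K (2 * e - μ) ^ 2 * X * θ ^ 2 +
      4 * (1 + θ * (algebraMap ℂ K κ * X - algebraMap ℂ K b)) *
        (1 - θ * (algebraMap ℂ K e - algebraMap ℂ K a * X)))) {L : IntermediateField ℂ K}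
    (hL : L ≤ IntermediateField.adjoin ℂ ({X, θ, ω} : Set K)) (hXL : X ∈ L) (hθL : θ ∈ L) :
    Emb L :=
  emb_three' (IsScalarTower.toAlgHom ℂ K (AlgebraicClosure K)) hind hX1 hθ0 hκ h2 h3 hω hL hXL hθL

end Pool.Agent.J4H64.LC
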