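import Pool.Agent.J4H13.LC.Jobs
import Mathlib.RingTheory.MvPolynomial.EulerIdentity

/-!
# Project LC: quadratic forms in a basis of linear forms
-/

set_option autoImplicit false

open MvPolynomial

namespace Pool.Agent.J4H64.LC

open Pool.Agent.J4H13.BC Pool.Agent.J4H13.LA Pool.Agent.J4H13.BD Pool.Agent.J4H13.LC

lemma const_of_homog_zero {Q : P3} (hQ : Q.IsHomogeneous 0) : ∃ c : ℂ, Q = C c := by
  rw [← totalDegree_zero_iff_isHomogeneous, totalDegree_eq_zero_iff_eq_C] at hQ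
  exact ⟨_, hQ⟩

lemma lin_of_homog_one {Q : P3} (hQ : Q.IsHomogeneous 1) : ∃ w : V3, Q = lin w := by
  choose w hw using fun i => const_of_homog_zero (hQ.pderiv (i := i))
  refine ⟨w, ?_⟩
  have h1 := hQ.sum_X_mul_pderiv
  rw [one_smul] at h1
  rw [← h1]
  unfold lin
  refine Finset.sum_congr rfl fun i _ => ?_
  rw [hw i, mul_comm]

lemma quad_of_homog_two {Q : P3} (hQ : Q.IsHomogeneous 2) : ∃ h : Fin 3 → V3,
    Q = ∑ i, X i * lin (h i) := by
  choose w hw using fun i => lin_of_homog_one (hQ.pderiv (i := i))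
  refine ⟨fun i => (2⁻¹ : ℂ) • w i, ?_⟩
  have h1 := hQ.sum_X_mul_pderiv
  have h2 : Q = C (2⁻¹ : ℂ) * (2 • Q) := by
    rw [nsmul_eq_mul, ← mul_assoc]
    have : (C (2⁻¹ : ℂ) : P3) * ((2 : ℕ) : P3) = 1 := by
      rw [← C_eq_coe_nat, ← C_mul]
      norm_num
    rw [this, one_mul]
  rw [h2, ← h1, Finset.mul_sum]
  refine Finset.sum_congr rfl fun i _ => ?_
  rw [hw i, lin_smul]
  ring

/-- the coordinates of a vector in a basis -/
lemma exists_coeffs {m : Fin 3 → V3} (hm : LinearIndependent ℂ m) (w : V3) :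
    ∃ c : V3, w = c 0 • m 0 + c 1 • m 1 + c 2 • m 2 := by
  let B : Module.Basis (Fin 3) ℂ V3 := basisOfLinearIndependentOfCardEqFinrank hm (by simp)
  have hB : ∀ i, B i = m i := fun i =>
    congrFun (coe_basisOfLinearIndependentOfCardEqFinrank hm _) i
  refine ⟨fun i => B.repr w i, ?_⟩
  conv_lhs => rw [← B.sum_repr w]
  rw [Fin.sum_univ_three, hB, hB, hB]

/-- a quadratic form in a basis of linear forms -/
lemma quad_basis {m : Fin 3 → V3} (hm : LinearIndependent ℂ m) {Q : P3}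
    (hQ : Q.IsHomogeneous 2) : ∃ a : Fin 3 → V3,
    Q = ∑ i, ∑ j, C (a i j) * (lin (m i) * lin (m j)) := by
  obtain ⟨h, hh⟩ := quad_of_homog_two hQ
  choose c hc using exists_coeffs hm
  have hlin : ∀ w : V3, lin w = ∑ j, C (c w j) * lin (m j) := by
    intro w
    conv_lhs => rw [hc w]
    rw [lin_add, lin_add, lin_smul, lin_smul, lin_smul, Fin.sum_univ_three]
  refine ⟨fun k l => ∑ i, c (Pi.single i 1) k * c (h i) l, ?_⟩
  rw [hh]
  have h1 : ∀ i : Fin 3, X i * lin (h i) = ∑ k, ∑ l, C (c (Pi.single i 1) k * c (h i) l) *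
      (lin (m k) * lin (m l)) := by
    intro i
    rw [← lin_single i, hlin (Pi.single i 1), hlin (h i), Finset.sum_mul_sum]
    refine Finset.sum_congr rfl fun k _ => Finset.sum_congr rfl fun l _ => ?_
    rw [C_mul]
    ring
  rw [Finset.sum_congr rfl fun i _ => h1 i, Finset.sum_comm]
  refine Finset.sum_congr rfl fun k _ => ?_
  rw [Finset.sum_comm]
  refine Finset.sum_congr rfl fun l _ => ?_
  rw [map_sum, Finset.sum_mul]

/-- a quadratic form in a basis of linear forms, six coefficients -/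
lemma quad_six {m : Fin 3 → V3} (hm : LinearIndependent ℂ m) {Q : P3}
    (hQ : Q.IsHomogeneous 2) : ∃ q₀₀ q₁₁ q₂₂ q₀₁ q₀₂ q₁₂ : ℂ,
    Q = C q₀₀ * lin (m 0) ^ 2 + C q₁₁ * lin (m 1) ^ 2 + C q₂₂ * lin (m 2) ^ 2 +
      C q₀₁ * (lin (m 0) * lin (m 1)) + C q₀₂ * (lin (m 0) * lin (m 2)) +
      C q₁₂ * (lin (m 1) * lin (m 2)) := by
  obtain ⟨a, ha⟩ := quad_basis hm hQ
  refine ⟨a 0 0, a 1 1, a 2 2, a 0 1 + a 1 0, a 0 2 + a 2 0, a 1 2 + a 2 1, ?_⟩
  rw [ha]
  simp only [Fin.sum_univ_three, C_add]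
  ring

/-- the point dual to a basis -/
lemma exists_dual {m : Fin 3 → V3} (hm : LinearIndependent ℂ m) (t : V3) :
    ∃ p : V3, ∀ j, eval p (lin (m j)) = t j := by
  let B : Module.Basis (Fin 3) ℂ V3 := basisOfLinearIndependentOfCardEqFinrank hm (by simp)
  have hB : ∀ i, B i = m i := fun i =>
    congrFun (coe_basisOfLinearIndependentOfCardEqFinrank hm _) i
  let f : V3 →ₗ[ℂ] ℂ := B.constr ℂ t
  have hf : ∀ j, f (m j) = t j := by
    intro j
    rw [← hB j]
    exact B.constr_basis ℂ t j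
  refine ⟨fun i => f (Pi.single i 1), fun j => ?_⟩
  rw [← hf j]
  have h1 : m j = ∑ i, m j i • (Pi.single i 1 : V3) := by
    conv_lhs => rw [pi_eq_sum_univ' (m j)]
  conv_rhs => rw [h1]
  rw [map_sum]
  unfold lin
  rw [map_sum]
  refine Finset.sum_congr rfl fun i _ => ?_
  rw [map_mul, eval_C, eval_X, map_smul, smul_eq_mul]

end Pool.Agent.J4H64.LC
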